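import Mathlib

/-!
Directional derivatives of real functions on the plane.
-/

namespace Pool.Agent.MP_665542_gt.H35

open Filter Topology

/-- derivative of `f` at `p` in the direction `v` -/
noncomputable def D (v : ℝ × ℝ) (f : ℝ × ℝ → ℝ) (p : ℝ × ℝ) : ℝ := fderiv ℝ f p v

/-- first coordinate direction -/
abbrev e1 : ℝ × ℝ := (1, 0)

/-- second coordinate direction -/
abbrev e2 : ℝ × ℝ := (0, 1)

variable {f g : ℝ × ℝ → ℝ} {p v w : ℝ × ℝ}

theorem D_add (hf : DifferentiableAt ℝ f p) (hg : DifferentiableAt ℝ g p) :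
    D v (fun x => f x + g x) p = D v f p + D v g p := by
  unfold D
  rw [fderiv_fun_add hf hg]; rfl

theorem D_sub (hf : DifferentiableAt ℝ f p) (hg : DifferentiableAt ℝ g p) :
    D v (fun x => f x - g x) p = D v f p - D v g p := by
  unfold D
  rw [fderiv_fun_sub hf hg]; rfl

theorem D_neg : D v (fun x => - f x) p = - D v f p := by
  unfold D
  rw [fderiv_fun_neg]; rfl

theorem D_mul (hf : DifferentiableAt ℝ f p) (hg : DifferentiableAt ℝ g p) :
    D v (fun x => f x * g x) p = D v f p * g p + f p * D v g p := by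
  unfold D
  rw [fderiv_fun_mul hf hg]
  simp only [add_apply, smul_apply, smul_eq_mul]
  ring

theorem D_const (c : ℝ) : D v (fun _ => c) p = 0 := by
  unfold D
  simp

theorem D_const_mul (c : ℝ) (hf : DifferentiableAt ℝ f p) :
    D v (fun x => c * f x) p = c * D v f p := by
  rw [D_mul (differentiableAt_const c) hf, D_const]; ring

theorem D_fst : D v (fun x => x.1) p = v.1 := by
  unfold D
  rw [fderiv_fst]; rfl

theorem D_snd : D v (fun x => x.2) p = v.2 := by
  unfold D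
  rw [fderiv_snd]; rfl

theorem D_comp {φ : ℝ → ℝ} {φ' : ℝ} (hφ : HasDerivAt φ φ' (f p)) (hf : DifferentiableAt ℝ f p) :
    D v (fun x => φ (f x)) p = φ' * D v f p := by
  unfold D
  have := (hφ.comp_hasFDerivAt p hf.hasFDerivAt).fderiv
  rw [show (fun x => φ (f x)) = φ ∘ f from rfl, this]
  simp

theorem D_inv (hf : DifferentiableAt ℝ f p) (h : f p ≠ 0) :
    D v (fun x => (f x)⁻¹) p = - D v f p / f p ^ 2 := by
  rw [D_comp (hasDerivAt_inv h) hf]; ring

theorem D_congr (h : f =ᶠ[𝓝 p] g) : D v f p = D v g p := by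
  unfold D
  rw [h.fderiv_eq]

theorem D_congr_on {U : Set (ℝ × ℝ)} (hU : IsOpen U) (h : ∀ x ∈ U, f x = g x) (hp : p ∈ U) :
    D v f p = D v g p :=
  D_congr (Filter.eventually_of_mem (hU.mem_nhds hp) h)

theorem D_dir (f : ℝ × ℝ → ℝ) (p v : ℝ × ℝ) : D v f p = v.1 * D e1 f p + v.2 * D e2 f p := by
  unfold D
  have : v = v.1 • e1 + v.2 • e2 := by ext <;> simp
  conv_lhs => rw [this]
  rw [map_add, map_smul, map_smul]; rfl

theorem contDiff_D {m n : WithTop ℕ∞} (hf : ContDiff ℝ n f) (h : m + 1 ≤ n) (v : ℝ × ℝ) :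
    ContDiff ℝ m (D v f) :=
  (hf.fderiv_right h).clm_apply contDiff_const

theorem cd43 (hf : ContDiff ℝ 4 f) (v : ℝ × ℝ) : ContDiff ℝ 3 (D v f) :=
  contDiff_D hf (by norm_num) v

theorem cd32 (hf : ContDiff ℝ 3 f) (v : ℝ × ℝ) : ContDiff ℝ 2 (D v f) :=
  contDiff_D hf (by norm_num) v

theorem cd21 (hf : ContDiff ℝ 2 f) (v : ℝ × ℝ) : ContDiff ℝ 1 (D v f) :=
  contDiff_D hf (by norm_num) v

theorem cd10 (hf : ContDiff ℝ 1 f) (v : ℝ × ℝ) : Continuous (D v f) :=
  (contDiff_D (m := 0) hf (by norm_num) v).continuous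

theorem d1 (hf : ContDiff ℝ 1 f) : Differentiable ℝ f := hf.differentiable (by norm_num)

theorem d2 (hf : ContDiff ℝ 2 f) : Differentiable ℝ f := hf.differentiable (by norm_num)

theorem d3 (hf : ContDiff ℝ 3 f) : Differentiable ℝ f := hf.differentiable (by norm_num)

theorem l21 (hf : ContDiff ℝ 2 f) : ContDiff ℝ 1 f := hf.of_le (by norm_num)

theorem l32 (hf : ContDiff ℝ 3 f) : ContDiff ℝ 2 f := hf.of_le (by norm_num)

theorem l43 (hf : ContDiff ℝ 4 f) : ContDiff ℝ 3 f := hf.of_le (by norm_num)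

theorem D_comm (hf : ContDiff ℝ 2 f) (v w p : ℝ × ℝ) : D v (D w f) p = D w (D v f) p := by
  have hs : IsSymmSndFDerivAt ℝ f p := hf.contDiffAt.isSymmSndFDerivAt (by simp)
  have hd : DifferentiableAt ℝ (fderiv ℝ f) p :=
    ((hf.fderiv_right (m := 1) (by norm_num)).differentiable (by norm_num)) p
  have key : ∀ a b : ℝ × ℝ, D a (D b f) p = fderiv ℝ (fderiv ℝ f) p a b := by
    intro a b
    unfold D
    rw [fderiv_clm_apply hd (differentiableAt_const b)]
    simp
  rw [key, key, hs.eq]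

theorem hasDerivAt_D_line (hf : Differentiable ℝ f) (r t : ℝ) :
    HasDerivAt (fun s => f (r, s)) (D e2 f (r, t)) t := by
  have h : HasDerivAt (fun s : ℝ => ((r, s) : ℝ × ℝ)) e2 t :=
    (hasDerivAt_const t r).prodMk (hasDerivAt_id t)
  exact (hf (r, t)).hasFDerivAt.comp_hasDerivAt t h

theorem D_comp2 {a b : ℝ × ℝ → ℝ} (hf : Differentiable ℝ f) (ha : DifferentiableAt ℝ a p)
    (hb : DifferentiableAt ℝ b p) :
    D v (fun x => f (a x, b x)) p =
      D v a p * D e1 f (a p, b p) + D v b p * D e2 f (a p, b p) := by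
  have h := ((hf (a p, b p)).hasFDerivAt.comp p (ha.hasFDerivAt.prodMk hb.hasFDerivAt)).fderiv
  have h2 : D v (fun x => f (a x, b x)) p = D (D v a p, D v b p) f (a p, b p) := by
    unfold D
    rw [show (fun x => f (a x, b x)) = f ∘ fun x => (a x, b x) from rfl, h]
    simp
  rw [h2, D_dir]

end Pool.Agent.MP_665542_gt.H35
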