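import Mathlib
import Pool.Agent.MP_665542_gt.H35.Calc

/-!
A regularised argument principle: if the Jacobian of `w = (u, v)` is at most `c |w|²` on a disc
then `w` does not wind twice, in the positive sense, along the boundary circle.
-/

namespace Pool.Agent.MP_665542_gt.H35

open Filter Topology Set MeasureTheory Real

theorem box_identity {U V : ℝ × ℝ → ℝ} (hU : ContDiff ℝ 2 U) (hV : ContDiff ℝ 2 V) {e ρ : ℝ}
    (he : 0 < e) (hρ : 0 ≤ ρ) (hU0 : ∀ t, D e2 U (0, t) = 0) (hV0 : ∀ t, D e2 V (0, t) = 0)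
    (hpU : ∀ r, U (r, 2 * π) = U (r, 0)) (hpV : ∀ r, V (r, 2 * π) = V (r, 0))
    (hqU : ∀ r, D e1 U (r, 2 * π) = D e1 U (r, 0)) (hqV : ∀ r, D e1 V (r, 2 * π) = D e1 V (r, 0)) :
    (∫ t in (0 : ℝ)..2 * π, (U (ρ, t) * D e2 V (ρ, t) - V (ρ, t) * D e2 U (ρ, t)) *
        (U (ρ, t) * U (ρ, t) + V (ρ, t) * V (ρ, t) + e)⁻¹) =
      ∫ q in Icc ((0 : ℝ), (0 : ℝ)) (ρ, 2 * π),
        2 * e * (D e1 U q * D e2 V q - D e2 U q * D e1 V q) / (U q * U q + V q * V q + e) ^ 2 := by
  have hpos : ∀ q, U q * U q + V q * V q + e ≠ 0 := fun q => by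
    have := mul_self_nonneg (U q); have := mul_self_nonneg (V q); positivity
  have U1 := l21 hU
  have V1 := l21 hV
  have hq : ContDiff ℝ 1 fun q => (U q * U q + V q * V q + e)⁻¹ :=
    ContDiff.inv (by fun_prop) hpos
  have a1 := cd21 hU e1
  have a2 := cd21 hU e2
  have b1 := cd21 hV e1
  have b2 := cd21 hV e2
  set f : ℝ × ℝ → ℝ := fun q => (U q * D e2 V q - V q * D e2 U q) * (U q * U q + V q * V q + e)⁻¹
    with hf
  set g : ℝ × ℝ → ℝ := fun q => (V q * D e1 U q - U q * D e1 V q) * (U q * U q + V q * V q + e)⁻¹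
    with hg
  have hf1 : ContDiff ℝ 1 f := ((U1.mul b2).sub (V1.mul a2)).mul hq
  have hg1 : ContDiff ℝ 1 g := ((V1.mul a1).sub (U1.mul b1)).mul hq
  have hdiv : ∀ q, fderiv ℝ f q (1, 0) + fderiv ℝ g q (0, 1) =
      2 * e * (D e1 U q * D e2 V q - D e2 U q * D e1 V q) / (U q * U q + V q * V q + e) ^ 2 := by
    intro q
    have dU := d1 U1 q
    have dV := d1 V1 q
    have da1 := d1 a1 q
    have da2 := d1 a2 q
    have db1 := d1 b1 q
    have db2 := d1 b2 q
    have dQ : DifferentiableAt ℝ (fun q => U q * U q + V q * V q + e) q := by fun_prop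
    have hQ : ∀ w, D w (fun q => U q * U q + V q * V q + e) q =
        2 * (U q * D w U q + V q * D w V q) := by
      intro w
      rw [D_add (by fun_prop) (by fun_prop), D_add (by fun_prop) (by fun_prop), D_mul dU dU,
        D_mul dV dV, D_const]
      ring
    change D e1 f q + D e2 g q = _
    rw [hf, hg, D_mul (by fun_prop) (d1 hq q), D_mul (by fun_prop) (d1 hq q),
      D_inv dQ (hpos q), D_inv dQ (hpos q), hQ, hQ, D_sub (by fun_prop) (by fun_prop),
      D_sub (by fun_prop) (by fun_prop), D_mul dU db2, D_mul dV da2, D_mul dV da1, D_mul dU db1,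
      D_comm hU e1 e2, D_comm hV e1 e2]
    have := hpos q
    field_simp
    ring
  have key := integral_divergence_prod_Icc_of_hasFDerivAt_of_le f g (fderiv ℝ f) (fderiv ℝ g)
    ((0 : ℝ), (0 : ℝ)) (ρ, 2 * π) ⟨hρ, by positivity⟩ hf1.continuous.continuousOn
    hg1.continuous.continuousOn (fun x _ => (d1 hf1 x).hasFDerivAt)
    (fun x _ => (d1 hg1 x).hasFDerivAt)
    (((cd10 hf1 e1).add (cd10 hg1 e2)).continuousOn.integrableOn_compact isCompact_Icc)
  simp only [hdiv] at key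
  rw [key]
  have g0 : ∀ r, g (r, 2 * π) = g (r, 0) := by
    intro r
    simp only [hg, hpU, hpV, hqU, hqV]
  have f0 : ∀ t, f (0, t) = 0 := by
    intro t
    simp only [hf, hU0, hV0]
    ring
  simp only [g0, f0]
  simp [hf]

theorem tendsto_err {Q : ℝ × ℝ → ℝ} (hQ : Continuous Q) (h0 : ∀ q, 0 ≤ Q q) (a b : ℝ × ℝ) :
    Tendsto (fun e : ℝ => ∫ q in Icc a b, e * Q q / (Q q + e) ^ 2) (𝓝[>] 0) (𝓝 0) := by
  have h := tendsto_integral_filter_of_dominated_convergence (μ := volume.restrict (Icc a b))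
    (l := 𝓝[>] (0 : ℝ)) (F := fun e q => e * Q q / (Q q + e) ^ 2) (f := fun _ => (0 : ℝ))
    (fun _ => (1 : ℝ)) ?_ ?_ ?_ ?_
  · simpa using h
  · filter_upwards [self_mem_nhdsWithin] with e he
    refine Continuous.aestronglyMeasurable (Continuous.div (by fun_prop) (by fun_prop) ?_)
    intro q
    have := h0 q
    have he : 0 < e := he
    positivity
  · filter_upwards [self_mem_nhdsWithin] with e he
    refine Eventually.of_forall fun q => ?_
    have := h0 q
    have he : 0 < e := he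
    rw [Real.norm_eq_abs, abs_of_nonneg (by positivity), div_le_one (by positivity)]
    nlinarith [sq_nonneg (Q q - e), mul_nonneg this he.le]
  · exact (continuousOn_const (c := (1 : ℝ))).integrableOn_compact isCompact_Icc
  · refine Eventually.of_forall fun q => ?_
    rcases (h0 q).eq_or_lt with h | h
    · simp [← h]
    · have : ContinuousAt (fun e : ℝ => e * Q q / (Q q + e) ^ 2) 0 :=
        ContinuousAt.div (by fun_prop) (by fun_prop) (by simpa using h.ne')
      simpa using this.tendsto.mono_left nhdsWithin_le_nhds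

theorem wind_two {x y x' y' : ℝ → ℝ} (hx : ∀ t, HasDerivAt x (x' t) t)
    (hy : ∀ t, HasDerivAt y (y' t) t) (cx : Continuous x') (cy : Continuous y')
    (px : x (2 * π) = x 0) (py : y (2 * π) = y 0)
    (hb : ∀ t, 0 < -(x t * cos (2 * t) + y t * sin (2 * t)) ∨
      -(y t * cos (2 * t) - x t * sin (2 * t)) ≠ 0) :
    (∀ t, 0 < x t * x t + y t * y t) ∧
    (∫ t in (0 : ℝ)..2 * π, (x t * y' t - y t * x' t) * (x t * x t + y t * y t)⁻¹) = 4 * π := by
  have hpos : ∀ t, 0 < x t * x t + y t * y t := by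
    intro t
    by_contra h
    have h1 : x t = 0 := by nlinarith [mul_self_nonneg (x t), mul_self_nonneg (y t)]
    have h2 : y t = 0 := by nlinarith [mul_self_nonneg (x t), mul_self_nonneg (y t)]
    have := hb t
    simp [h1, h2] at this
  refine ⟨hpos, ?_⟩
  have xc : Continuous x := continuous_iff_continuousAt.2 fun t => (hx t).continuousAt
  have yc : Continuous y := continuous_iff_continuousAt.2 fun t => (hy t).continuousAt
  set a : ℝ → ℝ := fun t => -(x t * cos (2 * t) + y t * sin (2 * t)) with ha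
  set b : ℝ → ℝ := fun t => -(y t * cos (2 * t) - x t * sin (2 * t)) with hb'
  set a' : ℝ → ℝ := fun t => -(x' t * cos (2 * t) + y' t * sin (2 * t)) + 2 * b t with ha'
  set b' : ℝ → ℝ := fun t => -(y' t * cos (2 * t) - x' t * sin (2 * t)) - 2 * a t with hb''
  have h2t : ∀ t : ℝ, HasDerivAt (fun t : ℝ => 2 * t) 2 t := fun t => by
    simpa using (hasDerivAt_id t).const_mul (2 : ℝ)
  have da : ∀ t, HasDerivAt a (a' t) t := by
    intro t
    refine ((((hx t).fun_mul (h2t t).cos).fun_add ((hy t).fun_mul (h2t t).sin)).fun_neg).congr_deriv ?_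
    simp only [ha', hb']; ring
  have db : ∀ t, HasDerivAt b (b' t) t := by
    intro t
    refine ((((hy t).fun_mul (h2t t).cos).fun_sub ((hx t).fun_mul (h2t t).sin)).fun_neg).congr_deriv ?_
    simp only [hb'', ha]; ring
  have hab : ∀ t, a t * a t + b t * b t = x t * x t + y t * y t := by
    intro t
    simp only [ha, hb']
    linear_combination (x t * x t + y t * y t) * sin_sq_add_cos_sq (2 * t)
  have hl : ∀ t, HasDerivAt (fun t => (Complex.log ((a t : ℂ) + (b t : ℂ) * Complex.I)).im)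
      ((x t * y' t - y t * x' t) * (x t * x t + y t * y t)⁻¹ - 2) t := by
    intro t
    have hz : HasDerivAt (fun t => (a t : ℂ) + (b t : ℂ) * Complex.I)
        ((a' t : ℂ) + (b' t : ℂ) * Complex.I) t :=
      (da t).ofReal_comp.fun_add ((db t).ofReal_comp.mul_const Complex.I)
    have hs : (a t : ℂ) + (b t : ℂ) * Complex.I ∈ Complex.slitPlane := by
      rw [Complex.mem_slitPlane_iff]
      have h : 0 < a t ∨ b t ≠ 0 := hb t
      simpa using h
    have h3 := Complex.imCLM.hasFDerivAt.comp_hasDerivAt t (hz.clog_real hs)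
    refine HasDerivAt.congr_deriv h3 ?_
    have hn : Complex.normSq ((a t : ℂ) + (b t : ℂ) * Complex.I) = x t * x t + y t * y t := by
      rw [Complex.normSq_add_mul_I, ← hab]; ring
    simp only [Complex.imCLM_apply, Complex.div_im, hn]
    have hi : (x t * x t + y t * y t) * (x t * x t + y t * y t)⁻¹ = 1 :=
      mul_inv_cancel₀ (hpos t).ne'
    simp only [Complex.add_im, Complex.add_re, Complex.ofReal_re, Complex.ofReal_im, Complex.mul_re,
      Complex.mul_im, Complex.I_re, Complex.I_im, ha', hb'', ha, hb', div_eq_mul_inv]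
    linear_combination (x t * y' t - y t * x' t - 2 * (x t ^ 2 + y t ^ 2)) *
      (x t * x t + y t * y t)⁻¹ * sin_sq_add_cos_sq (2 * t) - 2 * hi
  have hc : Continuous fun t => (x t * y' t - y t * x' t) * (x t * x t + y t * y t)⁻¹ :=
    Continuous.mul (by fun_prop) (Continuous.inv₀ (by fun_prop) fun t => (hpos t).ne')
  have h := intervalIntegral.integral_eq_sub_of_hasDerivAt (a := 0) (b := 2 * π)
    (fun t _ => hl t) ((hc.sub continuous_const).intervalIntegrable _ _)
  rw [intervalIntegral.integral_sub (hc.intervalIntegrable _ _)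
    (continuous_const.intervalIntegrable _ _)] at h
  have c4 : cos (2 * (2 * π)) = 1 := by
    rw [cos_two_mul, cos_two_pi]; norm_num
  have s4 : sin (2 * (2 * π)) = 0 := by
    rw [sin_two_mul, sin_two_pi]; norm_num
  have e1 : a (2 * π) = a 0 := by simp [ha, px, c4, s4]
  have e2 : b (2 * π) = b 0 := by simp [hb', py, c4, s4]
  rw [e1, e2] at h
  simp at h
  linarith

theorem no_wind {u v c : ℝ × ℝ → ℝ} (hu : ContDiff ℝ 2 u) (hv : ContDiff ℝ 2 v) {ρ : ℝ}
    (hρ : 0 < ρ) (hc : ContinuousOn c {p | p.1 ^ 2 + p.2 ^ 2 ≤ ρ ^ 2})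
    (hJ : ∀ p : ℝ × ℝ, p.1 ^ 2 + p.2 ^ 2 ≤ ρ ^ 2 →
      D e1 u p * D e2 v p - D e2 u p * D e1 v p ≤ c p * (u p * u p + v p * v p))
    (hb : ∀ t, 0 < -(u (ρ * cos t, ρ * sin t) * cos (2 * t) + v (ρ * cos t, ρ * sin t) * sin (2 * t))
      ∨ -(v (ρ * cos t, ρ * sin t) * cos (2 * t) - u (ρ * cos t, ρ * sin t) * sin (2 * t)) ≠ 0) :
    False := by
  have hK : IsCompact {p : ℝ × ℝ | p.1 ^ 2 + p.2 ^ 2 ≤ ρ ^ 2} := by
    refine (isCompact_Icc (a := ((-ρ, -ρ) : ℝ × ℝ)) (b := (ρ, ρ))).of_isClosed_subset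
      (isClosed_le (by fun_prop) (by fun_prop)) ?_
    intro p hp
    have hp : p.1 ^ 2 + p.2 ^ 2 ≤ ρ ^ 2 := hp
    have h1 := abs_le_of_sq_le_sq' (a := p.1) (b := ρ) (by nlinarith [sq_nonneg p.2]) hρ.le
    have h2 := abs_le_of_sq_le_sq' (a := p.2) (b := ρ) (by nlinarith [sq_nonneg p.1]) hρ.le
    exact ⟨⟨h1.1, h2.1⟩, ⟨h1.2, h2.2⟩⟩
  obtain ⟨C, hC⟩ := hK.exists_bound_of_continuousOn hc
  have hC0 : 0 ≤ C := le_trans (norm_nonneg _) (hC (0, 0) (by simp; positivity))
  have pol : ∀ {u : ℝ × ℝ → ℝ}, ContDiff ℝ 2 u →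
      ContDiff ℝ 2 (fun q : ℝ × ℝ => u (q.1 * cos q.2, q.1 * sin q.2)) ∧
      (∀ q : ℝ × ℝ, D e1 (fun q : ℝ × ℝ => u (q.1 * cos q.2, q.1 * sin q.2)) q =
        cos q.2 * D e1 u (q.1 * cos q.2, q.1 * sin q.2) +
          sin q.2 * D e2 u (q.1 * cos q.2, q.1 * sin q.2)) ∧
      (∀ q : ℝ × ℝ, D e2 (fun q : ℝ × ℝ => u (q.1 * cos q.2, q.1 * sin q.2)) q =
        -(q.1 * sin q.2) * D e1 u (q.1 * cos q.2, q.1 * sin q.2) +
          q.1 * cos q.2 * D e2 u (q.1 * cos q.2, q.1 * sin q.2)) := by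
    intro u hu
    refine ⟨hu.comp (by fun_prop), fun q => ?_, fun q => ?_⟩ <;>
    · rw [D_comp2 (d2 hu) (by fun_prop) (by fun_prop), D_mul (by fun_prop) (by fun_prop),
        D_mul (by fun_prop) (by fun_prop), D_comp (hasDerivAt_cos _) (by fun_prop),
        D_comp (hasDerivAt_sin _) (by fun_prop), D_fst, D_snd]
      ring
  obtain ⟨hU, hU1, hU2⟩ := pol hu
  obtain ⟨hV, hV1, hV2⟩ := pol hv
  set U : ℝ × ℝ → ℝ := fun q : ℝ × ℝ => u (q.1 * cos q.2, q.1 * sin q.2) with hUdef
  set V : ℝ × ℝ → ℝ := fun q : ℝ × ℝ => v (q.1 * cos q.2, q.1 * sin q.2) with hVdef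
  have cU := hU.continuous
  have cV := hV.continuous
  have cU1 := cd10 (l21 hU) e1
  have cU2 := cd10 (l21 hU) e2
  have cV1 := cd10 (l21 hV) e1
  have cV2 := cd10 (l21 hV) e2
  obtain ⟨hpos, h4⟩ := wind_two (x := fun t => U (ρ, t)) (y := fun t => V (ρ, t))
    (hasDerivAt_D_line (d2 hU) ρ) (hasDerivAt_D_line (d2 hV) ρ) (by fun_prop) (by fun_prop)
    (by simp [hUdef]) (by simp [hVdef]) hb
  have hL : Tendsto (fun e : ℝ => ∫ t in (0 : ℝ)..2 * π,
      (U (ρ, t) * D e2 V (ρ, t) - V (ρ, t) * D e2 U (ρ, t)) *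
        (U (ρ, t) * U (ρ, t) + V (ρ, t) * V (ρ, t) + |e|)⁻¹) (𝓝[>] 0) (𝓝 (4 * π)) := by
    have hcont : Continuous (fun e : ℝ => ∫ t in (0 : ℝ)..2 * π,
        (U (ρ, t) * D e2 V (ρ, t) - V (ρ, t) * D e2 U (ρ, t)) *
          (U (ρ, t) * U (ρ, t) + V (ρ, t) * V (ρ, t) + |e|)⁻¹) := by
      apply intervalIntegral.continuous_parametric_intervalIntegral_of_continuous'
      refine Continuous.mul (by fun_prop) (Continuous.inv₀ (by fun_prop) fun z => ?_)
      have := hpos z.2
      positivity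
    have := (hcont.tendsto 0).mono_left (nhdsWithin_le_nhds (s := Ioi 0))
    simp only [abs_zero, add_zero] at this
    rwa [h4] at this
  have hR := (tendsto_err (Q := fun q => U q * U q + V q * V q) (by fun_prop)
    (fun q => by have := mul_self_nonneg (U q); have := mul_self_nonneg (V q); positivity)
    ((0 : ℝ), (0 : ℝ)) (ρ, 2 * π)).const_mul (2 * ρ * C)
  have hle := le_of_tendsto_of_tendsto hL hR ?_
  · have := pi_pos
    linarith
  filter_upwards [self_mem_nhdsWithin] with e he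
  have he : 0 < e := he
  have hne : ∀ q, (U q * U q + V q * V q + e) ^ 2 ≠ 0 := fun q => by
    have := mul_self_nonneg (U q); have := mul_self_nonneg (V q); positivity
  rw [abs_of_pos he, box_identity hU hV he hρ.le (by simp [hU2]) (by simp [hV2])
    (by simp [hUdef]) (by simp [hVdef]) (by simp [hU1]) (by simp [hV1]),
    ← integral_const_mul]
  refine setIntegral_mono_on
    ((Continuous.div (by fun_prop) (by fun_prop) hne).continuousOn.integrableOn_compact
      isCompact_Icc)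
    ((continuous_const.mul
      (Continuous.div (by fun_prop) (by fun_prop) hne)).continuousOn.integrableOn_compact
      isCompact_Icc) measurableSet_Icc fun q hq => ?_
  have q0 : 0 ≤ q.1 := hq.1.1
  have q1 : q.1 ≤ ρ := hq.2.1
  have hm : (q.1 * cos q.2) ^ 2 + (q.1 * sin q.2) ^ 2 ≤ ρ ^ 2 := by
    have : (q.1 * cos q.2) ^ 2 + (q.1 * sin q.2) ^ 2 = q.1 ^ 2 := by
      linear_combination q.1 ^ 2 * sin_sq_add_cos_sq q.2
    rw [this]; gcongr
  have h1 := hJ (q.1 * cos q.2, q.1 * sin q.2) hm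
  have h2 := hC (q.1 * cos q.2, q.1 * sin q.2) hm
  have h3 : c (q.1 * cos q.2, q.1 * sin q.2) ≤ C := le_trans (le_abs_self _) h2
  have hQ : 0 ≤ U q * U q + V q * V q := by
    have := mul_self_nonneg (U q); have := mul_self_nonneg (V q); positivity
  have hJp : D e1 U q * D e2 V q - D e2 U q * D e1 V q ≤ ρ * C * (U q * U q + V q * V q) := by
    have e : D e1 U q * D e2 V q - D e2 U q * D e1 V q = q.1 *
        (D e1 u (q.1 * cos q.2, q.1 * sin q.2) * D e2 v (q.1 * cos q.2, q.1 * sin q.2) -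
          D e2 u (q.1 * cos q.2, q.1 * sin q.2) * D e1 v (q.1 * cos q.2, q.1 * sin q.2)) := by
      rw [hU1, hU2, hV1, hV2]
      linear_combination q.1 *
        (D e1 u (q.1 * cos q.2, q.1 * sin q.2) * D e2 v (q.1 * cos q.2, q.1 * sin q.2) -
          D e2 u (q.1 * cos q.2, q.1 * sin q.2) * D e1 v (q.1 * cos q.2, q.1 * sin q.2)) *
          sin_sq_add_cos_sq q.2
    rw [e]
    calc _ ≤ q.1 * (C * (U q * U q + V q * V q)) := by
          apply mul_le_mul_of_nonneg_left _ q0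
          exact h1.trans (mul_le_mul_of_nonneg_right h3 hQ)
      _ ≤ ρ * (C * (U q * U q + V q * V q)) := by gcongr
      _ = _ := by ring
  rw [← mul_div_assoc]
  apply div_le_div_of_nonneg_right _ (sq_nonneg _)
  nlinarith

end Pool.Agent.MP_665542_gt.H35
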