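import Mathlib
import Pool.Agent.MP_665542_gt.H35.Calc

/-!
The Gauss and Codazzi equations for a pair of vector fields `a, b : ℝ² → ℝ³` with
`∂₁ b = ∂₂ a` (the first derivatives of a map into `ℝ³`).
-/

namespace Pool.Agent.MP_665542_gt.H35

/-- two vector fields with values in `ℝ³`, by components -/
structure Fr where
  a1 : ℝ × ℝ → ℝ
  a2 : ℝ × ℝ → ℝ
  a3 : ℝ × ℝ → ℝ
  b1 : ℝ × ℝ → ℝ
  b2 : ℝ × ℝ → ℝ
  b3 : ℝ × ℝ → ℝ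

namespace Fr

variable (X : Fr)

def E (p : ℝ × ℝ) : ℝ := X.a1 p * X.a1 p + X.a2 p * X.a2 p + X.a3 p * X.a3 p
def F (p : ℝ × ℝ) : ℝ := X.a1 p * X.b1 p + X.a2 p * X.b2 p + X.a3 p * X.b3 p
def G (p : ℝ × ℝ) : ℝ := X.b1 p * X.b1 p + X.b2 p * X.b2 p + X.b3 p * X.b3 p
def n1 (p : ℝ × ℝ) : ℝ := X.a2 p * X.b3 p - X.a3 p * X.b2 p
def n2 (p : ℝ × ℝ) : ℝ := X.a3 p * X.b1 p - X.a1 p * X.b3 p
def n3 (p : ℝ × ℝ) : ℝ := X.a1 p * X.b2 p - X.a2 p * X.b1 p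
noncomputable def L (p : ℝ × ℝ) : ℝ :=
  D e1 X.a1 p * X.n1 p + D e1 X.a2 p * X.n2 p + D e1 X.a3 p * X.n3 p
noncomputable def M (p : ℝ × ℝ) : ℝ :=
  D e2 X.a1 p * X.n1 p + D e2 X.a2 p * X.n2 p + D e2 X.a3 p * X.n3 p
noncomputable def N (p : ℝ × ℝ) : ℝ :=
  D e2 X.b1 p * X.n1 p + D e2 X.b2 p * X.n2 p + D e2 X.b3 p * X.n3 p
noncomputable def c111 (p : ℝ × ℝ) : ℝ :=
  D e1 X.a1 p * X.a1 p + D e1 X.a2 p * X.a2 p + D e1 X.a3 p * X.a3 p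
noncomputable def c112 (p : ℝ × ℝ) : ℝ :=
  D e1 X.a1 p * X.b1 p + D e1 X.a2 p * X.b2 p + D e1 X.a3 p * X.b3 p
noncomputable def c121 (p : ℝ × ℝ) : ℝ :=
  D e2 X.a1 p * X.a1 p + D e2 X.a2 p * X.a2 p + D e2 X.a3 p * X.a3 p
noncomputable def c122 (p : ℝ × ℝ) : ℝ :=
  D e2 X.a1 p * X.b1 p + D e2 X.a2 p * X.b2 p + D e2 X.a3 p * X.b3 p
noncomputable def c221 (p : ℝ × ℝ) : ℝ :=
  D e2 X.b1 p * X.a1 p + D e2 X.b2 p * X.a2 p + D e2 X.b3 p * X.a3 p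
noncomputable def c222 (p : ℝ × ℝ) : ℝ :=
  D e2 X.b1 p * X.b1 p + D e2 X.b2 p * X.b2 p + D e2 X.b3 p * X.b3 p
noncomputable def R (p : ℝ × ℝ) : ℝ :=
  D e1 X.a1 p * D e2 X.b1 p + D e1 X.a2 p * D e2 X.b2 p + D e1 X.a3 p * D e2 X.b3 p -
    (D e2 X.a1 p * D e2 X.a1 p + D e2 X.a2 p * D e2 X.a2 p + D e2 X.a3 p * D e2 X.a3 p)

/-- all six components are `C³` -/
structure Sm : Prop where
  a1 : ContDiff ℝ 3 X.a1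
  a2 : ContDiff ℝ 3 X.a2
  a3 : ContDiff ℝ 3 X.a3
  b1 : ContDiff ℝ 3 X.b1
  b2 : ContDiff ℝ 3 X.b2
  b3 : ContDiff ℝ 3 X.b3

/-- the symmetry `∂₁ b = ∂₂ a` on `U` -/
def Cl (U : Set (ℝ × ℝ)) : Prop :=
  ∀ p ∈ U, D e1 X.b1 p = D e2 X.a1 p ∧ D e1 X.b2 p = D e2 X.a2 p ∧ D e1 X.b3 p = D e2 X.a3 p

variable {X} {U : Set (ℝ × ℝ)} {p : ℝ × ℝ}

theorem D_dot {f1 f2 f3 g1 g2 g3 : ℝ × ℝ → ℝ} (h1 : Differentiable ℝ f1) (h2 : Differentiable ℝ f2)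
    (h3 : Differentiable ℝ f3) (k1 : Differentiable ℝ g1) (k2 : Differentiable ℝ g2)
    (k3 : Differentiable ℝ g3) (v p : ℝ × ℝ) :
    D v (fun x => f1 x * g1 x + f2 x * g2 x + f3 x * g3 x) p =
      D v f1 p * g1 p + f1 p * D v g1 p + (D v f2 p * g2 p + f2 p * D v g2 p) +
        (D v f3 p * g3 p + f3 p * D v g3 p) := by
  rw [D_add (by fun_prop) (by fun_prop), D_add (by fun_prop) (by fun_prop), D_mul (h1 p) (k1 p),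
    D_mul (h2 p) (k2 p), D_mul (h3 p) (k3 p)]

theorem D_crs {f1 f2 g1 g2 : ℝ × ℝ → ℝ} (h1 : Differentiable ℝ f1) (h2 : Differentiable ℝ f2)
    (k1 : Differentiable ℝ g1) (k2 : Differentiable ℝ g2) (v p : ℝ × ℝ) :
    D v (fun x => f1 x * g1 x - f2 x * g2 x) p =
      D v f1 p * g1 p + f1 p * D v g1 p - (D v f2 p * g2 p + f2 p * D v g2 p) := by
  rw [D_sub (by fun_prop) (by fun_prop), D_mul (h1 p) (k1 p), D_mul (h2 p) (k2 p)]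

theorem cd_dot {n : WithTop ℕ∞} {f1 f2 f3 g1 g2 g3 : ℝ × ℝ → ℝ} (h1 : ContDiff ℝ n f1)
    (h2 : ContDiff ℝ n f2) (h3 : ContDiff ℝ n f3) (k1 : ContDiff ℝ n g1) (k2 : ContDiff ℝ n g2)
    (k3 : ContDiff ℝ n g3) : ContDiff ℝ n (fun x => f1 x * g1 x + f2 x * g2 x + f3 x * g3 x) :=
  ((h1.mul k1).add (h2.mul k2)).add (h3.mul k3)

namespace Sm

variable (h : X.Sm)
include h

theorem E : ContDiff ℝ 3 X.E := cd_dot h.a1 h.a2 h.a3 h.a1 h.a2 h.a3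
theorem F : ContDiff ℝ 3 X.F := cd_dot h.a1 h.a2 h.a3 h.b1 h.b2 h.b3
theorem G : ContDiff ℝ 3 X.G := cd_dot h.b1 h.b2 h.b3 h.b1 h.b2 h.b3
theorem n1 : ContDiff ℝ 3 X.n1 := (h.a2.mul h.b3).sub (h.a3.mul h.b2)
theorem n2 : ContDiff ℝ 3 X.n2 := (h.a3.mul h.b1).sub (h.a1.mul h.b3)
theorem n3 : ContDiff ℝ 3 X.n3 := (h.a1.mul h.b2).sub (h.a2.mul h.b1)
theorem L : ContDiff ℝ 2 X.L :=
  cd_dot (cd32 h.a1 _) (cd32 h.a2 _) (cd32 h.a3 _) (l32 h.n1) (l32 h.n2) (l32 h.n3)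
theorem M : ContDiff ℝ 2 X.M :=
  cd_dot (cd32 h.a1 _) (cd32 h.a2 _) (cd32 h.a3 _) (l32 h.n1) (l32 h.n2) (l32 h.n3)
theorem N : ContDiff ℝ 2 X.N :=
  cd_dot (cd32 h.b1 _) (cd32 h.b2 _) (cd32 h.b3 _) (l32 h.n1) (l32 h.n2) (l32 h.n3)
theorem c111 : ContDiff ℝ 2 X.c111 :=
  cd_dot (cd32 h.a1 _) (cd32 h.a2 _) (cd32 h.a3 _) (l32 h.a1) (l32 h.a2) (l32 h.a3)
theorem c112 : ContDiff ℝ 2 X.c112 :=
  cd_dot (cd32 h.a1 _) (cd32 h.a2 _) (cd32 h.a3 _) (l32 h.b1) (l32 h.b2) (l32 h.b3)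
theorem c121 : ContDiff ℝ 2 X.c121 :=
  cd_dot (cd32 h.a1 _) (cd32 h.a2 _) (cd32 h.a3 _) (l32 h.a1) (l32 h.a2) (l32 h.a3)
theorem c122 : ContDiff ℝ 2 X.c122 :=
  cd_dot (cd32 h.a1 _) (cd32 h.a2 _) (cd32 h.a3 _) (l32 h.b1) (l32 h.b2) (l32 h.b3)
theorem c221 : ContDiff ℝ 2 X.c221 :=
  cd_dot (cd32 h.b1 _) (cd32 h.b2 _) (cd32 h.b3 _) (l32 h.a1) (l32 h.a2) (l32 h.a3)
theorem c222 : ContDiff ℝ 2 X.c222 :=
  cd_dot (cd32 h.b1 _) (cd32 h.b2 _) (cd32 h.b3 _) (l32 h.b1) (l32 h.b2) (l32 h.b3)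

theorem DE (v p : ℝ × ℝ) : D v X.E p =
    2 * (D v X.a1 p * X.a1 p + D v X.a2 p * X.a2 p + D v X.a3 p * X.a3 p) := by
  have := D_dot (d3 h.a1) (d3 h.a2) (d3 h.a3) (d3 h.a1) (d3 h.a2) (d3 h.a3) v p
  exact this.trans (by ring)

theorem DG (v p : ℝ × ℝ) : D v X.G p =
    2 * (D v X.b1 p * X.b1 p + D v X.b2 p * X.b2 p + D v X.b3 p * X.b3 p) := by
  have := D_dot (d3 h.b1) (d3 h.b2) (d3 h.b3) (d3 h.b1) (d3 h.b2) (d3 h.b3) v p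
  exact this.trans (by ring)

theorem DF (v p : ℝ × ℝ) : D v X.F p =
    (D v X.a1 p * X.b1 p + D v X.a2 p * X.b2 p + D v X.a3 p * X.b3 p) +
      (D v X.b1 p * X.a1 p + D v X.b2 p * X.a2 p + D v X.b3 p * X.a3 p) := by
  have := D_dot (d3 h.a1) (d3 h.a2) (d3 h.a3) (d3 h.b1) (d3 h.b2) (d3 h.b3) v p
  exact this.trans (by ring)

theorem chris (hc : X.Cl U) (hp : p ∈ U) :
    X.c111 p = D e1 X.E p / 2 ∧ X.c112 p = D e1 X.F p - D e2 X.E p / 2 ∧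
    X.c121 p = D e2 X.E p / 2 ∧ X.c122 p = D e1 X.G p / 2 ∧
    X.c221 p = D e2 X.F p - D e1 X.G p / 2 ∧ X.c222 p = D e2 X.G p / 2 := by
  obtain ⟨s1, s2, s3⟩ := hc p hp
  simp only [h.DE, h.DF, h.DG, s1, s2, s3, Fr.c111, Fr.c112, Fr.c121, Fr.c122, Fr.c221, Fr.c222]
  refine ⟨by ring, by ring, by ring, by ring, by ring, by ring⟩

theorem R_eq (hc : X.Cl U) (hp : p ∈ U) : X.R p = D e2 X.c112 p - D e1 X.c122 p := by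
  obtain ⟨s1, s2, s3⟩ := hc p hp
  have k1 := D_dot (d2 (cd32 h.a1 e1)) (d2 (cd32 h.a2 e1)) (d2 (cd32 h.a3 e1)) (d3 h.b1) (d3 h.b2)
    (d3 h.b3) e2 p
  have k2 := D_dot (d2 (cd32 h.a1 e2)) (d2 (cd32 h.a2 e2)) (d2 (cd32 h.a3 e2)) (d3 h.b1) (d3 h.b2)
    (d3 h.b3) e1 p
  rw [show D e2 X.c112 p = _ from k1, show D e1 X.c122 p = _ from k2, D_comm (l32 h.a1) e1 e2,
    D_comm (l32 h.a2) e1 e2, D_comm (l32 h.a3) e1 e2, s1, s2, s3, Fr.R]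
  ring

theorem Dn (v p : ℝ × ℝ) :
    D v X.n1 p = D v X.a2 p * X.b3 p + X.a2 p * D v X.b3 p -
      (D v X.a3 p * X.b2 p + X.a3 p * D v X.b2 p) ∧
    D v X.n2 p = D v X.a3 p * X.b1 p + X.a3 p * D v X.b1 p -
      (D v X.a1 p * X.b3 p + X.a1 p * D v X.b3 p) ∧
    D v X.n3 p = D v X.a1 p * X.b2 p + X.a1 p * D v X.b2 p -
      (D v X.a2 p * X.b1 p + X.a2 p * D v X.b1 p) :=
  ⟨D_crs (d3 h.a2) (d3 h.a3) (d3 h.b3) (d3 h.b2) v p,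
    D_crs (d3 h.a3) (d3 h.a1) (d3 h.b1) (d3 h.b3) v p,
    D_crs (d3 h.a1) (d3 h.a2) (d3 h.b2) (d3 h.b1) v p⟩

theorem codazzi1 (hc : X.Cl U) (hp : p ∈ U) :
    (X.E p * X.G p - X.F p ^ 2) * (D e2 X.L p - D e1 X.M p) =
      (2 * (X.G p * X.c121 p - X.F p * X.c122 p) + (X.E p * X.c222 p - X.F p * X.c221 p)) * X.L p -
        2 * (X.G p * X.c111 p - X.F p * X.c112 p) * X.M p -
          (X.E p * X.c112 p - X.F p * X.c111 p) * X.N p := by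
  obtain ⟨s1, s2, s3⟩ := hc p hp
  have k1 := D_dot (d2 (cd32 h.a1 e1)) (d2 (cd32 h.a2 e1)) (d2 (cd32 h.a3 e1)) (d3 h.n1) (d3 h.n2)
    (d3 h.n3) e2 p
  have k2 := D_dot (d2 (cd32 h.a1 e2)) (d2 (cd32 h.a2 e2)) (d2 (cd32 h.a3 e2)) (d3 h.n1) (d3 h.n2)
    (d3 h.n3) e1 p
  obtain ⟨x1, x2, x3⟩ := h.Dn e1 p
  obtain ⟨y1, y2, y3⟩ := h.Dn e2 p
  rw [show D e2 X.L p = _ from k1, show D e1 X.M p = _ from k2, D_comm (l32 h.a1) e1 e2,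
    D_comm (l32 h.a2) e1 e2, D_comm (l32 h.a3) e1 e2, x1, x2, x3, y1, y2, y3, s1, s2, s3]
  simp only [Fr.E, Fr.F, Fr.G, Fr.L, Fr.M, Fr.N, Fr.n1, Fr.n2, Fr.n3, Fr.c111, Fr.c112, Fr.c121,
    Fr.c122, Fr.c221, Fr.c222]
  ring

theorem codazzi2 (hU : IsOpen U) (hc : X.Cl U) (hp : p ∈ U) :
    (X.E p * X.G p - X.F p ^ 2) * (D e2 X.M p - D e1 X.N p) =
      (X.G p * X.c221 p - X.F p * X.c222 p) * X.L p +
        2 * (X.E p * X.c222 p - X.F p * X.c221 p) * X.M p -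
          (2 * (X.E p * X.c122 p - X.F p * X.c121 p) + (X.G p * X.c111 p - X.F p * X.c112 p)) *
            X.N p := by
  obtain ⟨s1, s2, s3⟩ := hc p hp
  have k1 := D_dot (d2 (cd32 h.a1 e2)) (d2 (cd32 h.a2 e2)) (d2 (cd32 h.a3 e2)) (d3 h.n1) (d3 h.n2)
    (d3 h.n3) e2 p
  have k2 := D_dot (d2 (cd32 h.b1 e2)) (d2 (cd32 h.b2 e2)) (d2 (cd32 h.b3 e2)) (d3 h.n1) (d3 h.n2)
    (d3 h.n3) e1 p
  obtain ⟨x1, x2, x3⟩ := h.Dn e1 p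
  obtain ⟨y1, y2, y3⟩ := h.Dn e2 p
  have t1 : D e2 (D e1 X.b1) p = D e2 (D e2 X.a1) p := D_congr_on hU (fun x hx => (hc x hx).1) hp
  have t2 : D e2 (D e1 X.b2) p = D e2 (D e2 X.a2) p := D_congr_on hU (fun x hx => (hc x hx).2.1) hp
  have t3 : D e2 (D e1 X.b3) p = D e2 (D e2 X.a3) p := D_congr_on hU (fun x hx => (hc x hx).2.2) hp
  rw [show D e2 X.M p = _ from k1, show D e1 X.N p = _ from k2, D_comm (l32 h.b1) e1 e2,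
    D_comm (l32 h.b2) e1 e2, D_comm (l32 h.b3) e1 e2, t1, t2, t3, x1, x2, x3, y1, y2, y3,
    s1, s2, s3]
  simp only [Fr.E, Fr.F, Fr.G, Fr.L, Fr.M, Fr.N, Fr.n1, Fr.n2, Fr.n3, Fr.c111, Fr.c112, Fr.c121,
    Fr.c122, Fr.c221, Fr.c222]
  ring

end Sm

theorem gauss (X : Fr) (p : ℝ × ℝ) :
    X.L p * X.N p - X.M p ^ 2 = (X.E p * X.G p - X.F p ^ 2) * X.R p -
      (X.c111 p * (X.c221 p * X.G p - X.F p * X.c222 p) -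
        X.c112 p * (X.c221 p * X.F p - X.E p * X.c222 p)) +
      (X.c121 p * (X.c121 p * X.G p - X.F p * X.c122 p) -
        X.c122 p * (X.c121 p * X.F p - X.E p * X.c122 p)) := by
  simp only [Fr.E, Fr.F, Fr.G, Fr.L, Fr.M, Fr.N, Fr.n1, Fr.n2, Fr.n3, Fr.c111, Fr.c112, Fr.c121,
    Fr.c122, Fr.c221, Fr.c222, Fr.R]
  ring

/-- the two frames have the same first fundamental form on `U` -/
def Iso (X Y : Fr) (U : Set (ℝ × ℝ)) : Prop :=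
  ∀ p ∈ U, X.E p = Y.E p ∧ X.F p = Y.F p ∧ X.G p = Y.G p

variable {Y : Fr}

theorem chris_eq (hX : X.Sm) (hY : Y.Sm) (hU : IsOpen U) (cX : X.Cl U) (cY : Y.Cl U)
    (hI : Iso X Y U) (hp : p ∈ U) :
    X.c111 p = Y.c111 p ∧ X.c112 p = Y.c112 p ∧ X.c121 p = Y.c121 p ∧ X.c122 p = Y.c122 p ∧
      X.c221 p = Y.c221 p ∧ X.c222 p = Y.c222 p := by
  obtain ⟨x1, x2, x3, x4, x5, x6⟩ := hX.chris cX hp
  obtain ⟨y1, y2, y3, y4, y5, y6⟩ := hY.chris cY hp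
  have hE : ∀ v, D v X.E p = D v Y.E p := fun v => D_congr_on hU (fun x hx => (hI x hx).1) hp
  have hF : ∀ v, D v X.F p = D v Y.F p := fun v => D_congr_on hU (fun x hx => (hI x hx).2.1) hp
  have hG : ∀ v, D v X.G p = D v Y.G p := fun v => D_congr_on hU (fun x hx => (hI x hx).2.2) hp
  simp only [x1, x2, x3, x4, x5, x6, y1, y2, y3, y4, y5, y6, hE, hF, hG, and_self]

theorem gauss_eq (hX : X.Sm) (hY : Y.Sm) (hU : IsOpen U) (cX : X.Cl U) (cY : Y.Cl U)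
    (hI : Iso X Y U) (hp : p ∈ U) :
    X.L p * X.N p - X.M p ^ 2 = Y.L p * Y.N p - Y.M p ^ 2 := by
  obtain ⟨x1, x2, x3, x4, x5, x6⟩ := chris_eq hX hY hU cX cY hI hp
  obtain ⟨y1, y2, y3⟩ := hI p hp
  have hR : X.R p = Y.R p := by
    rw [hX.R_eq cX hp, hY.R_eq cY hp,
      D_congr_on hU (fun x hx => (chris_eq hX hY hU cX cY hI hx).2.1) hp,
      D_congr_on hU (fun x hx => (chris_eq hX hY hU cX cY hI hx).2.2.2.1) hp]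
  rw [gauss, gauss, x1, x2, x3, x4, x5, x6, y1, y2, y3, hR]

end Fr

end Pool.Agent.MP_665542_gt.H35
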