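import Mathlib
import Pool.Agent.MP_665542_gt.H35.Arg
import Pool.Agent.MP_665542_gt.H35.Frame

/-!
Index comparison of two isometric locally convex discs: on every circle there is a point where
the second fundamental form of the first, in the direction of the circle, is at most that of the
second.
-/

namespace Pool.Agent.MP_665542_gt.H35

open Real

theorem t_sq_le {P Q S t u v : ℝ} (hP : 0 < P) (hS : 0 < S) (hd : 0 < P * S - Q ^ 2)
    (h : S * (t + u) + P * (t - u) - 2 * Q * v = 0) : t ^ 2 ≤ u ^ 2 + v ^ 2 := by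
  have h1 : (P + S) * t = (P - S) * u + 2 * Q * v := by linarith
  have h2 : ((P + S) * t) ^ 2 ≤ (P + S) ^ 2 * (u ^ 2 + v ^ 2) := by
    rw [h1]
    nlinarith [sq_nonneg ((P - S) * v - 2 * Q * u), mul_nonneg hd.le (sq_nonneg u),
      mul_nonneg hd.le (sq_nonneg v)]
  rw [mul_pow] at h2
  exact le_of_mul_le_mul_left h2 (by positivity)

theorem jac_le {P Q S ux uy vx vy r1 r2 : ℝ} (hP : 0 < P) (hS : 0 < S) (hd : 0 < P * S - Q ^ 2)
    (h1 : 2 * S * ux + (P + S) * vy - 2 * Q * vx = r1)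
    (h2 : -2 * P * uy + (P + S) * vx - 2 * Q * vy = r2) :
    ux * vy - uy * vx ≤ (P ^ 2 * r1 ^ 2 + S ^ 2 * r2 ^ 2) / (8 * P * S * (P * S - Q ^ 2)) := by
  rw [le_div_iff₀ (by positivity)]
  have e : 2 * P * S * (ux * vy - uy * vx) = -(P * S - Q ^ 2) * (vx ^ 2 + vy ^ 2) -
      ((S * vx - Q * vy) ^ 2 + (P * vy - Q * vx) ^ 2) + P * r1 * vy + S * r2 * vx := by
    rw [← h1, ← h2]; ring
  have e2 : (ux * vy - uy * vx) * (8 * P * S * (P * S - Q ^ 2)) =
      4 * (P * S - Q ^ 2) * (2 * P * S * (ux * vy - uy * vx)) := by ring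
  rw [e2, e]
  set d := P * S - Q ^ 2
  nlinarith [sq_nonneg (P * r1 - 2 * d * vy), sq_nonneg (S * r2 - 2 * d * vx),
    mul_nonneg hd.le (sq_nonneg (S * vx - Q * vy)), mul_nonneg hd.le (sq_nonneg (P * vy - Q * vx))]

theorem cs3 (a b c x y z : ℝ) :
    (a * x + b * y + c * z) ^ 2 ≤ (a ^ 2 + b ^ 2 + c ^ 2) * (x ^ 2 + y ^ 2 + z ^ 2) := by
  nlinarith [sq_nonneg (a * y - b * x), sq_nonneg (a * z - c * x), sq_nonneg (b * z - c * y)]

theorem fin_le (P S a b c a' b' c' x y z w : ℝ) (h : x ^ 2 + y ^ 2 + z ^ 2 ≤ 4 * w) :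
    P ^ 2 * (a * x + b * y + c * z) ^ 2 + S ^ 2 * (a' * x + b' * y + c' * z) ^ 2 ≤
      (P ^ 2 * ((a ^ 2 + b ^ 2 + c ^ 2) * 4) + S ^ 2 * ((a' ^ 2 + b' ^ 2 + c' ^ 2) * 4)) * w := by
  have h1 := (cs3 a b c x y z).trans (mul_le_mul_of_nonneg_left h (by positivity))
  have h2 := (cs3 a' b' c' x y z).trans (mul_le_mul_of_nonneg_left h (by positivity))
  have h3 := mul_le_mul_of_nonneg_left h1 (sq_nonneg P)
  have h4 := mul_le_mul_of_nonneg_left h2 (sq_nonneg S)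
  linarith

theorem sum_def {L M N L' M' N' : ℝ} (hL : 0 < L) (hL' : 0 < L') (h : 0 < L * N - M ^ 2)
    (h' : 0 < L' * N' - M' ^ 2) :
    0 < L + L' ∧ 0 < N + N' ∧ 0 < (L + L') * (N + N') - (M + M') ^ 2 := by
  have hN : 0 < N := by
    by_contra hn
    nlinarith [sq_nonneg M, mul_nonneg hL.le (neg_nonneg.2 (not_lt.1 hn))]
  have hN' : 0 < N' := by
    by_contra hn
    nlinarith [sq_nonneg M', mul_nonneg hL'.le (neg_nonneg.2 (not_lt.1 hn))]
  refine ⟨by positivity, by positivity, ?_⟩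
  have key : 0 < L * L' * (L * N' + L' * N - 2 * M * M') := by
    have e : L * L' * (L * N' + L' * N - 2 * M * M') =
        L ^ 2 * (L' * N' - M' ^ 2) + L' ^ 2 * (L * N - M ^ 2) + (L * M' - L' * M) ^ 2 := by ring
    rw [e]; positivity
  have := (mul_pos_iff_of_pos_left (mul_pos hL hL')).1 key
  nlinarith

theorem compare {X Y : Fr} (hX : X.Sm) (hY : Y.Sm) {U : Set (ℝ × ℝ)} (hU : IsOpen U)
    (cX : X.Cl U) (cY : Y.Cl U) (hI : Fr.Iso X Y U) {ρ : ℝ} (hρ : 0 < ρ)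
    (hsub : ∀ p : ℝ × ℝ, p.1 ^ 2 + p.2 ^ 2 ≤ ρ ^ 2 → p ∈ U)
    (hΔ : ∀ p ∈ U, 0 < X.E p * X.G p - X.F p ^ 2)
    (hK : ∀ p ∈ U, 0 < Y.L p * Y.N p - Y.M p ^ 2)
    (hLX : ∀ p ∈ U, 0 < X.L p) (hLY : ∀ p ∈ U, 0 < Y.L p)
    (hb : ∀ t, Y.L (ρ * cos t, ρ * sin t) * sin t ^ 2 -
        2 * Y.M (ρ * cos t, ρ * sin t) * sin t * cos t + Y.N (ρ * cos t, ρ * sin t) * cos t ^ 2 <
      X.L (ρ * cos t, ρ * sin t) * sin t ^ 2 -
        2 * X.M (ρ * cos t, ρ * sin t) * sin t * cos t + X.N (ρ * cos t, ρ * sin t) * cos t ^ 2) :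
    False := by
  set l : ℝ × ℝ → ℝ := fun p => X.L p - Y.L p with hl
  set m : ℝ × ℝ → ℝ := fun p => X.M p - Y.M p with hm
  set n : ℝ × ℝ → ℝ := fun p => X.N p - Y.N p with hn
  set P : ℝ × ℝ → ℝ := fun p => X.L p + Y.L p with hP
  set Q : ℝ × ℝ → ℝ := fun p => X.M p + Y.M p with hQ
  set S : ℝ × ℝ → ℝ := fun p => X.N p + Y.N p with hS
  have sl : ContDiff ℝ 2 l := hX.L.sub hY.L
  have sm : ContDiff ℝ 2 m := hX.M.sub hY.M
  have sn : ContDiff ℝ 2 n := hX.N.sub hY.N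
  have sP : ContDiff ℝ 2 P := hX.L.add hY.L
  have sQ : ContDiff ℝ 2 Q := hX.M.add hY.M
  have sS : ContDiff ℝ 2 S := hX.N.add hY.N
  have hG : ∀ p ∈ U, X.L p * X.N p - X.M p ^ 2 = Y.L p * Y.N p - Y.M p ^ 2 :=
    fun p hp => Fr.gauss_eq hX hY hU cX cY hI hp
  have hpos : ∀ p ∈ U, 0 < P p ∧ 0 < S p ∧ 0 < P p * S p - Q p ^ 2 := fun p hp =>
    sum_def (hLX p hp) (hLY p hp) (by rw [hG p hp]; exact hK p hp) (hK p hp)
  have htr : ∀ p ∈ U, S p * l p + P p * n p + (-2 * Q p) * m p = 0 := by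
    intro p hp
    simp only [hl, hm, hn, hP, hQ, hS]
    linear_combination 2 * hG p hp
  have hdtr : ∀ p ∈ U, ∀ w, D w S p * l p + S p * D w l p + (D w P p * n p + P p * D w n p) +
      (-2 * D w Q p * m p + -2 * Q p * D w m p) = 0 := by
    intro p hp w
    have h1 := Fr.D_dot (d2 sS) (d2 sP) (f3 := fun p => -2 * Q p) ((d2 sQ).const_mul _) (d2 sl)
      (d2 sn) (d2 sm) w p
    rw [D_congr_on hU htr hp, D_const, D_const_mul _ (d2 sQ p)] at h1
    exact h1.symm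
  set Δ : ℝ × ℝ → ℝ := fun p => X.E p * X.G p - X.F p ^ 2 with hΔd
  set k1 : ℝ × ℝ → ℝ := fun p =>
    2 * (X.G p * X.c121 p - X.F p * X.c122 p) + (X.E p * X.c222 p - X.F p * X.c221 p) with hk1
  set k2 : ℝ × ℝ → ℝ := fun p => -2 * (X.G p * X.c111 p - X.F p * X.c112 p) with hk2
  set k3 : ℝ × ℝ → ℝ := fun p => -(X.E p * X.c112 p - X.F p * X.c111 p) with hk3
  set k4 : ℝ × ℝ → ℝ := fun p => X.G p * X.c221 p - X.F p * X.c222 p with hk4
  set k5 : ℝ × ℝ → ℝ := fun p => 2 * (X.E p * X.c222 p - X.F p * X.c221 p) with hk5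
  set k6 : ℝ × ℝ → ℝ := fun p =>
    -(2 * (X.E p * X.c122 p - X.F p * X.c121 p) + (X.G p * X.c111 p - X.F p * X.c112 p)) with hk6
  have hcod : ∀ p ∈ U,
      D e2 l p - D e1 m p = (k1 p * l p + k2 p * m p + k3 p * n p) * (Δ p)⁻¹ ∧
      D e2 m p - D e1 n p = (k4 p * l p + k5 p * m p + k6 p * n p) * (Δ p)⁻¹ := by
    intro p hp
    obtain ⟨x1, x2, x3, x4, x5, x6⟩ := Fr.chris_eq hX hY hU cX cY hI hp
    obtain ⟨y1, y2, y3⟩ := hI p hp
    have a1 := hX.codazzi1 cX hp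
    have a2 := hX.codazzi2 hU cX hp
    have b1 := hY.codazzi1 cY hp
    have b2 := hY.codazzi2 hU cY hp
    rw [← x1, ← x2, ← x3, ← x4, ← x5, ← x6, ← y1, ← y2, ← y3] at b1 b2
    have h0 : Δ p ≠ 0 := (hΔ p hp).ne'
    rw [eq_mul_inv_iff_mul_eq₀ h0, eq_mul_inv_iff_mul_eq₀ h0, hl, hm, hn,
      D_sub (d2 hX.L p) (d2 hY.L p), D_sub (d2 hX.M p) (d2 hY.M p),
      D_sub (d2 hX.M p) (d2 hY.M p), D_sub (d2 hX.N p) (d2 hY.N p)]
    simp only [hΔd, hk1, hk2, hk3, hk4, hk5, hk6]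
    exact ⟨by linear_combination a1 - b1, by linear_combination a2 - b2⟩
  have cE := hX.E.continuous
  have cF := hX.F.continuous
  have cG := hX.G.continuous
  have c1 := hX.c111.continuous
  have c2 := hX.c112.continuous
  have c3 := hX.c121.continuous
  have c4 := hX.c122.continuous
  have c5 := hX.c221.continuous
  have c6 := hX.c222.continuous
  have ck1 : Continuous k1 := by rw [hk1]; fun_prop
  have ck2 : Continuous k2 := by rw [hk2]; fun_prop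
  have ck3 : Continuous k3 := by rw [hk3]; fun_prop
  have ck4 : Continuous k4 := by rw [hk4]; fun_prop
  have ck5 : Continuous k5 := by rw [hk5]; fun_prop
  have ck6 : Continuous k6 := by rw [hk6]; fun_prop
  have cΔ : ContinuousOn (fun p => (Δ p)⁻¹) {p : ℝ × ℝ | p.1 ^ 2 + p.2 ^ 2 ≤ ρ ^ 2} :=
    ContinuousOn.inv₀ (Continuous.continuousOn (by rw [hΔd]; fun_prop))
      fun p hp => (hΔ p (hsub p hp)).ne'
  have cP := sP.continuous
  have cQ := sQ.continuous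
  have cS := sS.continuous
  have cP1 := cd10 (l21 sP) e1
  have cP2 := cd10 (l21 sP) e2
  have cQ1 := cd10 (l21 sQ) e1
  have cQ2 := cd10 (l21 sQ) e2
  have cS1 := cd10 (l21 sS) e1
  have cS2 := cd10 (l21 sS) e2
  clear_value l m n P Q S Δ k1 k2 k3 k4 k5 k6
  refine no_wind (u := fun p => (1 / 2) * (l p - n p)) (v := m) (ρ := ρ)
    (c := fun p => (P p ^ 2 * (((-D e1 S p + (P p + S p) * k4 p * (Δ p)⁻¹) ^ 2 +
        (2 * D e1 Q p + (P p + S p) * k5 p * (Δ p)⁻¹) ^ 2 +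
        (-D e1 P p + (P p + S p) * k6 p * (Δ p)⁻¹) ^ 2) * 4) +
      S p ^ 2 * (((-D e2 S p - (P p + S p) * k1 p * (Δ p)⁻¹) ^ 2 +
        (2 * D e2 Q p - (P p + S p) * k2 p * (Δ p)⁻¹) ^ 2 +
        (-D e2 P p - (P p + S p) * k3 p * (Δ p)⁻¹) ^ 2) * 4)) /
        (8 * P p * S p * (P p * S p - Q p ^ 2)))
    (contDiff_const.mul (sl.sub sn)) sm hρ ?_ ?_ ?_
  · refine ContinuousOn.div (by fun_prop) (by fun_prop) fun p hp => ?_
    obtain ⟨h1, h2, h3⟩ := hpos p (hsub p hp)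
    positivity
  · intro p hp
    have hp := hsub p hp
    obtain ⟨h1, h2, h3⟩ := hpos p hp
    obtain ⟨f1, f2⟩ := hcod p hp
    have t1 := hdtr p hp e1
    have t2 := hdtr p hp e2
    have hu : ∀ w, D w (fun p => (1 / 2) * (l p - n p)) p = (1 / 2) * (D w l p - D w n p) := by
      intro w
      rw [D_const_mul _ ((d2 sl p).fun_sub (d2 sn p)), D_sub (d2 sl p) (d2 sn p)]
    rw [hu, hu]
    have ht : ((l p + n p) / 2) ^ 2 ≤ ((1 / 2) * (l p - n p)) ^ 2 + m p ^ 2 :=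
      t_sq_le h1 h2 h3 (by linear_combination htr p hp)
    have hw : l p ^ 2 + m p ^ 2 + n p ^ 2 ≤
        4 * ((1 / 2) * (l p - n p) * ((1 / 2) * (l p - n p)) + m p * m p) := by
      nlinarith [sq_nonneg (m p)]
    refine (jac_le
      (r1 := (-D e1 S p + (P p + S p) * k4 p * (Δ p)⁻¹) * l p +
        (2 * D e1 Q p + (P p + S p) * k5 p * (Δ p)⁻¹) * m p +
        (-D e1 P p + (P p + S p) * k6 p * (Δ p)⁻¹) * n p)
      (r2 := (-D e2 S p - (P p + S p) * k1 p * (Δ p)⁻¹) * l p +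
        (2 * D e2 Q p - (P p + S p) * k2 p * (Δ p)⁻¹) * m p +
        (-D e2 P p - (P p + S p) * k3 p * (Δ p)⁻¹) * n p) h1 h2 h3
      (by linear_combination t1 + (P p + S p) * f2)
      (by linear_combination t2 - (P p + S p) * f1)).trans ?_
    rw [div_mul_eq_mul_div]
    apply div_le_div_of_nonneg_right _ (by positivity)
    exact fin_le _ _ _ _ _ _ _ _ _ _ _ _ hw
  · intro t
    have hp : ((ρ * cos t, ρ * sin t) : ℝ × ℝ) ∈ U := by
      apply hsub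
      apply le_of_eq
      linear_combination ρ ^ 2 * sin_sq_add_cos_sq t
    have hb := hb t
    set p : ℝ × ℝ := (ρ * cos t, ρ * sin t)
    obtain ⟨h1, h2, h3⟩ := hpos p hp
    have ht : ((l p + n p) / 2) ^ 2 ≤ ((1 / 2) * (l p - n p)) ^ 2 + m p ^ 2 :=
      t_sq_le h1 h2 h3 (by linear_combination htr p hp)
    have hb2 : 0 < l p * sin t ^ 2 - 2 * m p * sin t * cos t + n p * cos t ^ 2 := by
      simp only [hl, hm, hn]; linarith
    by_contra hcon
    push Not at hcon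
    obtain ⟨g1, g2⟩ := hcon
    set u := (1 / 2) * (l p - n p) with hu
    set τ := (l p + n p) / 2 with hτ
    set lam := u * cos (2 * t) + m p * sin (2 * t) with hlam
    have e1 : l p * sin t ^ 2 - 2 * m p * sin t * cos t + n p * cos t ^ 2 = τ - lam := by
      rw [hτ, hlam, hu, cos_two_mul, sin_two_mul]
      linear_combination l p * sin_sq_add_cos_sq t
    have e2 : lam ^ 2 = u ^ 2 + m p ^ 2 := by
      have g3 : m p * cos (2 * t) - u * sin (2 * t) = 0 := by linarith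
      rw [hlam]
      linear_combination (u ^ 2 + m p ^ 2) * sin_sq_add_cos_sq (2 * t) -
        (m p * cos (2 * t) - u * sin (2 * t)) * g3
    have : τ ≤ lam := abs_le_of_sq_le_sq' (by rw [e2]; exact ht) (by linarith) |>.2
    linarith

end Pool.Agent.MP_665542_gt.H35
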