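import Mathlib
import Pool.Agent.MP_665542_gt.H35.Compare

/-!
A rotationally symmetric disc of positive curvature whose standard convex realisation closes up
(total curvature `4π`) while the curvature stays positive has no isometric immersion.
-/

namespace Pool.Agent.MP_665542_gt.H35

open Real Filter Topology Set

/-- squared distance to the origin -/
def rsq (p : ℝ × ℝ) : ℝ := p.1 * p.1 + p.2 * p.2

theorem sq_nonneg' (p : ℝ × ℝ) : 0 ≤ rsq p := by
  have := mul_self_nonneg p.1; have := mul_self_nonneg p.2; unfold rsq; positivity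

theorem cd_sq {n : WithTop ℕ∞} : ContDiff ℝ n rsq := by unfold rsq; fun_prop

theorem D_sq (v p : ℝ × ℝ) : D v rsq p = 2 * (p.1 * v.1 + p.2 * v.2) := by
  unfold rsq
  rw [D_add (by fun_prop) (by fun_prop), D_mul (by fun_prop) (by fun_prop),
    D_mul (by fun_prop) (by fun_prop), D_fst, D_snd]
  ring

theorem isOpen_sq (σ : ℝ) : IsOpen {p | rsq p < σ} :=
  isOpen_lt (cd_sq (n := 0)).continuous continuous_const

/-- profile data -/
structure Prof (A A1 A2 E E1 : ℝ → ℝ) (c0 : ℝ) : Prop where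
  sA : ContDiff ℝ 3 A
  sA1 : ContDiff ℝ 3 A1
  sE : ContDiff ℝ 3 E
  dA : ∀ s, HasDerivAt A (A1 s) s
  dA1 : ∀ s, HasDerivAt A1 (A2 s) s
  dE : ∀ s, HasDerivAt E (E1 s) s
  pA : ∀ s, 0 ≤ s → s ≤ 1 → 0 < A s
  pE : ∀ s, 0 ≤ s → s < 1 → 0 < E s
  E_one : E 1 = 0
  pc : 0 < c0
  pK : ∀ s, 0 ≤ s → s ≤ 1 → c0 ≤ A s ^ 3 * (E s * (A s + 2 * s * A1 s - 2 * s * (3 * A1 s + 2 * s * A2 s)) +
    s * (A s + 2 * s * A1 s) * E1 s)

/-- the frame of the surface of revolution -/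
def modelFr (A A1 : ℝ → ℝ) (ε : ℝ × ℝ → ℝ) : Fr where
  a1 := fun p => A (rsq p) + 2 * (A1 (rsq p) * (p.1 * p.1))
  a2 := fun p => 2 * (A1 (rsq p) * (p.1 * p.2))
  a3 := fun p => ε p * p.1
  b1 := fun p => 2 * (A1 (rsq p) * (p.1 * p.2))
  b2 := fun p => A (rsq p) + 2 * (A1 (rsq p) * (p.2 * p.2))
  b3 := fun p => ε p * p.2

/-- the coefficient of `x xᵀ` in the model metric -/
def Bc (A A1 E : ℝ → ℝ) (s : ℝ) : ℝ := 4 * A s * A1 s + 4 * s * A1 s ^ 2 + E s

variable {A A1 A2 E E1 : ℝ → ℝ} {c0 : ℝ}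

theorem exists_eps (h : Prof A A1 A2 E E1 c0) {σ : ℝ} (hσ : σ < 1) :
    ∃ ε : ℝ × ℝ → ℝ, ContDiff ℝ 3 ε ∧ (∀ p, 0 < ε p) ∧ ∀ p, rsq p < σ → ε p ^ 2 = E (rsq p) := by
  set χ : ℝ → ℝ := fun s => smoothTransition (((1 + σ) / 2 - s) / ((1 - σ) / 2)) with hχ
  have hw : 0 < (1 - σ) / 2 := by linarith
  have pos : ∀ s, 0 ≤ s → 0 < χ s * E s + (1 - χ s) := by
    intro s hs
    have h0 : 0 ≤ χ s := smoothTransition.nonneg _
    have h1 : χ s ≤ 1 := smoothTransition.le_one _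
    by_cases h2 : s < 1
    · have := h.pE s hs h2
      rcases h1.eq_or_lt with h3 | h3
      · rw [h3]; linarith
      · have := mul_nonneg h0 this.le
        linarith
    · have : χ s = 0 := smoothTransition.zero_of_nonpos
        (div_nonpos_of_nonpos_of_nonneg (by linarith) hw.le)
      rw [this]; norm_num
  have sχ : ContDiff ℝ 3 χ := smoothTransition.contDiff.comp (by fun_prop)
  refine ⟨fun p => √(χ (rsq p) * E (rsq p) + (1 - χ (rsq p))), ?_, fun p => ?_, fun p hp => ?_⟩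
  · refine ContDiff.sqrt ?_ fun p => (pos _ (sq_nonneg' p)).ne'
    exact ((sχ.comp cd_sq).mul (h.sE.comp cd_sq)).add (contDiff_const.sub (sχ.comp cd_sq))
  · exact sqrt_pos.2 (pos _ (sq_nonneg' p))
  · rw [sq_sqrt (pos _ (sq_nonneg' p)).le]
    have : χ (rsq p) = 1 := smoothTransition.one_of_one_le (by rw [le_div_iff₀ hw]; linarith)
    rw [this]; ring

theorem model_sm (h : Prof A A1 A2 E E1 c0) {ε : ℝ × ℝ → ℝ} (hε : ContDiff ℝ 3 ε) :
    (modelFr A A1 ε).Sm := by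
  have h1 := h.sA
  have h2 := h.sA1
  have h3 : ContDiff ℝ 3 rsq := cd_sq
  constructor <;> simp only [modelFr] <;> fun_prop

theorem model_D (h : Prof A A1 A2 E E1 c0) {ε : ℝ × ℝ → ℝ} (hε : ContDiff ℝ 3 ε) (v p : ℝ × ℝ) :
    D v (modelFr A A1 ε).a1 p = A1 (rsq p) * (2 * (p.1 * v.1 + p.2 * v.2)) +
      2 * (A2 (rsq p) * (2 * (p.1 * v.1 + p.2 * v.2)) * (p.1 * p.1) + A1 (rsq p) * (2 * p.1 * v.1)) ∧
    D v (modelFr A A1 ε).a2 p = 2 * (A2 (rsq p) * (2 * (p.1 * v.1 + p.2 * v.2)) * (p.1 * p.2) +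
      A1 (rsq p) * (v.1 * p.2 + p.1 * v.2)) ∧
    D v (modelFr A A1 ε).a3 p = D v ε p * p.1 + ε p * v.1 ∧
    D v (modelFr A A1 ε).b1 p = 2 * (A2 (rsq p) * (2 * (p.1 * v.1 + p.2 * v.2)) * (p.1 * p.2) +
      A1 (rsq p) * (v.1 * p.2 + p.1 * v.2)) ∧
    D v (modelFr A A1 ε).b2 p = A1 (rsq p) * (2 * (p.1 * v.1 + p.2 * v.2)) +
      2 * (A2 (rsq p) * (2 * (p.1 * v.1 + p.2 * v.2)) * (p.2 * p.2) + A1 (rsq p) * (2 * p.2 * v.2)) ∧
    D v (modelFr A A1 ε).b3 p = D v ε p * p.2 + ε p * v.2 := by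
  have h1 : Differentiable ℝ fun p => A (rsq p) := d3 (h.sA.comp cd_sq)
  have h2 : Differentiable ℝ fun p => A1 (rsq p) := d3 (h.sA1.comp cd_sq)
  have h3 := d3 hε
  have h4 : Differentiable ℝ A1 := h.sA1.differentiable (by norm_num)
  have h5 : Differentiable ℝ rsq := d3 cd_sq
  have k1 : D v (fun p => A (rsq p)) p = A1 (rsq p) * (2 * (p.1 * v.1 + p.2 * v.2)) := by
    rw [D_comp (h.dA _) (d3 cd_sq p), D_sq]
  have k2 : D v (fun p => A1 (rsq p)) p = A2 (rsq p) * (2 * (p.1 * v.1 + p.2 * v.2)) := by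
    rw [D_comp (h.dA1 _) (d3 cd_sq p), D_sq]
  simp only [modelFr]
  refine ⟨?_, ?_, ?_, ?_, ?_, ?_⟩
  · rw [D_add (h1 p) (by fun_prop), D_const_mul _ (by fun_prop), D_mul (h2 p) (by fun_prop),
      D_mul (by fun_prop) (by fun_prop), k1, k2, D_fst]
    ring
  · rw [D_const_mul _ (by fun_prop), D_mul (h2 p) (by fun_prop),
      D_mul (by fun_prop) (by fun_prop), k2, D_fst, D_snd]
  · rw [D_mul (h3 p) (by fun_prop), D_fst]
  · rw [D_const_mul _ (by fun_prop), D_mul (h2 p) (by fun_prop),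
      D_mul (by fun_prop) (by fun_prop), k2, D_fst, D_snd]
  · rw [D_add (h1 p) (by fun_prop), D_const_mul _ (by fun_prop), D_mul (h2 p) (by fun_prop),
      D_mul (by fun_prop) (by fun_prop), k1, k2, D_snd]
    ring
  · rw [D_mul (h3 p) (by fun_prop), D_snd]

theorem model_facts (h : Prof A A1 A2 E E1 c0) {ε : ℝ × ℝ → ℝ} (hε : ContDiff ℝ 3 ε)
    (pε : ∀ p, 0 < ε p) {σ : ℝ} (hσ : σ < 1) (qε : ∀ p, rsq p < σ → ε p ^ 2 = E (rsq p)) :
    (modelFr A A1 ε).Cl {p | rsq p < σ} ∧ ∀ p, rsq p < σ →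
      ((modelFr A A1 ε).E p = A (rsq p) ^ 2 + Bc A A1 E (rsq p) * p.1 ^ 2 ∧
      (modelFr A A1 ε).F p = Bc A A1 E (rsq p) * (p.1 * p.2) ∧
      (modelFr A A1 ε).G p = A (rsq p) ^ 2 + Bc A A1 E (rsq p) * p.2 ^ 2) ∧
      c0 ≤ (modelFr A A1 ε).L p * (modelFr A A1 ε).N p - (modelFr A A1 ε).M p ^ 2 ∧
      0 < (modelFr A A1 ε).L p ∧
      0 < (modelFr A A1 ε).E p * (modelFr A A1 ε).G p - (modelFr A A1 ε).F p ^ 2 ∧
      ∀ a b : ℝ, a * p.1 + b * p.2 = 0 → (modelFr A A1 ε).L p * a ^ 2 +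
        2 * (modelFr A A1 ε).M p * a * b + (modelFr A A1 ε).N p * b ^ 2 =
          ε p * A (rsq p) ^ 2 * (a ^ 2 + b ^ 2) := by
  have dε : ∀ p, rsq p < σ → ∀ v, D v ε p = E1 (rsq p) / ε p * (p.1 * v.1 + p.2 * v.2) := by
    intro p hp v
    have h1 : D v (fun x => ε x * ε x) p = D v (fun x => E (rsq x)) p :=
      D_congr_on (isOpen_sq σ) (fun x hx => by rw [← qε x hx]; ring) hp
    rw [D_mul (d3 hε p) (d3 hε p), D_comp (h.dE _) (d3 cd_sq p), D_sq] at h1
    have := (pε p).ne'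
    field_simp
    linear_combination (1 / 2) * h1
  constructor
  · intro p hp
    obtain ⟨-, -, -, x1, x2, x3⟩ := model_D h hε e1 p
    obtain ⟨y1, y2, y3, -⟩ := model_D h hε e2 p
    rw [x1, x2, x3, y1, y2, y3, dε p hp, dε p hp]
    refine ⟨by ring, by ring, by ring⟩
  intro p hp
  have s0 := sq_nonneg' p
  have s1 : rsq p ≤ 1 := by linarith
  have hA := h.pA _ s0 s1
  have he := pε p
  have hq := qε p hp
  obtain ⟨x1, x2, x3, -⟩ := model_D h hε e1 p
  obtain ⟨y1, y2, y3, z1, z2, z3⟩ := model_D h hε e2 p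
  rw [dε p hp] at x3 y3 z3
  set η := E1 (rsq p) / ε p with hη
  have hη2 : η * ε p = E1 (rsq p) := by rw [hη]; field_simp
  set W := A (rsq p) * ((A (rsq p) + 2 * rsq p * A1 (rsq p)) * η -
    4 * ε p * (A1 (rsq p) + rsq p * A2 (rsq p))) with hW
  have hs : rsq p = p.1 * p.1 + p.2 * p.2 := rfl
  have hL : (modelFr A A1 ε).L p = ε p * A (rsq p) ^ 2 + p.1 ^ 2 * W := by
    simp only [Fr.L, x1, x2, x3, Fr.n1, Fr.n2, Fr.n3]
    simp only [modelFr, hW]
    generalize A (rsq p) = a, A1 (rsq p) = a1, A2 (rsq p) = a2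
    rw [hs]; ring
  have hM : (modelFr A A1 ε).M p = p.1 * p.2 * W := by
    simp only [Fr.M, y1, y2, y3, Fr.n1, Fr.n2, Fr.n3]
    simp only [modelFr, hW]
    generalize A (rsq p) = a, A1 (rsq p) = a1, A2 (rsq p) = a2
    rw [hs]; ring
  have hN : (modelFr A A1 ε).N p = ε p * A (rsq p) ^ 2 + p.2 ^ 2 * W := by
    simp only [Fr.N, z1, z2, z3, Fr.n1, Fr.n2, Fr.n3]
    simp only [modelFr, hW]
    generalize A (rsq p) = a, A1 (rsq p) = a1, A2 (rsq p) = a2
    rw [hs]; ring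
  have hE : (modelFr A A1 ε).E p = A (rsq p) ^ 2 + Bc A A1 E (rsq p) * p.1 ^ 2 := by
    simp only [Fr.E, modelFr, Bc, ← hq]
    generalize A (rsq p) = a, A1 (rsq p) = a1
    rw [hs]; ring
  have hF : (modelFr A A1 ε).F p = Bc A A1 E (rsq p) * (p.1 * p.2) := by
    simp only [Fr.F, modelFr, Bc, ← hq]
    generalize A (rsq p) = a, A1 (rsq p) = a1
    rw [hs]; ring
  have hG : (modelFr A A1 ε).G p = A (rsq p) ^ 2 + Bc A A1 E (rsq p) * p.2 ^ 2 := by
    simp only [Fr.G, modelFr, Bc, ← hq]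
    generalize A (rsq p) = a, A1 (rsq p) = a1
    rw [hs]; ring
  have hdet : (modelFr A A1 ε).L p * (modelFr A A1 ε).N p - (modelFr A A1 ε).M p ^ 2 =
      ε p * A (rsq p) ^ 2 * (ε p * A (rsq p) ^ 2 + rsq p * W) := by
    rw [hL, hM, hN]
    generalize A (rsq p) = a
    rw [hs]; ring
  have hK : c0 ≤ ε p * A (rsq p) ^ 2 * (ε p * A (rsq p) ^ 2 + rsq p * W) := by
    refine (h.pK _ s0 s1).trans (le_of_eq ?_)
    rw [← hq, ← hη2, hW]; ring
  have hp1 : 0 < ε p * A (rsq p) ^ 2 := by positivity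
  have hp2 : 0 < ε p * A (rsq p) ^ 2 + rsq p * W :=
    (mul_pos_iff_of_pos_left hp1).1 (h.pc.trans_le hK)
  refine ⟨⟨hE, hF, hG⟩, hdet ▸ hK, ?_, ?_, fun a b hab => ?_⟩
  · rw [hL]
    rcases le_total 0 W with hw | hw
    · positivity
    · have : rsq p * W ≤ p.1 ^ 2 * W := by
        apply mul_le_mul_of_nonpos_right _ hw
        rw [hs]; nlinarith [mul_self_nonneg p.2]
      linarith
  · have e : (modelFr A A1 ε).E p * (modelFr A A1 ε).G p - (modelFr A A1 ε).F p ^ 2 =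
        A (rsq p) ^ 2 * ((A (rsq p) + 2 * rsq p * A1 (rsq p)) ^ 2 + rsq p * ε p ^ 2) := by
      rw [hE, hF, hG, Bc, ← hq]
      generalize A (rsq p) = a, A1 (rsq p) = a1
      rw [hs]; ring
    rw [e]
    rcases s0.eq_or_lt with h0 | h0
    · rw [← h0] at hA ⊢
      simp only [mul_zero, zero_mul, add_zero]
      positivity
    · positivity
  · rw [hL, hM, hN]
    linear_combination W * (a * p.1 + b * p.2) * hab

/-- the frame has the model metric on the open unit disc -/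
def HasModel (X : Fr) (A A1 E : ℝ → ℝ) : Prop :=
  ∀ p, rsq p < 1 → X.E p = A (rsq p) ^ 2 + Bc A A1 E (rsq p) * p.1 ^ 2 ∧
    X.F p = Bc A A1 E (rsq p) * (p.1 * p.2) ∧ X.G p = A (rsq p) ^ 2 + Bc A A1 E (rsq p) * p.2 ^ 2

theorem det_ge (h : Prof A A1 A2 E E1 c0) {X : Fr} (hX : X.Sm) (cX : X.Cl univ)
    (hm : HasModel X A A1 E) {p : ℝ × ℝ} (hp : rsq p < 1) :
    c0 ≤ X.L p * X.N p - X.M p ^ 2 := by
  have hσ : (rsq p + 1) / 2 < 1 := by linarith
  obtain ⟨ε, hε, pε, qε⟩ := exists_eps h hσ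
  obtain ⟨cY, hY⟩ := model_facts h hε pε hσ qε
  have hp' : rsq p < (rsq p + 1) / 2 := by linarith
  rw [Fr.gauss_eq hX (model_sm h hε) (isOpen_sq _) (fun x _ => cX x trivial) cY ?_ hp']
  · exact (hY p hp').2.1
  · intro x hx
    obtain ⟨a, b, c⟩ := hm x (lt_trans hx hσ)
    obtain ⟨a', b', c'⟩ := (hY x hx).1
    exact ⟨a.trans a'.symm, b.trans b'.symm, c.trans c'.symm⟩

theorem no_frame_pos (h : Prof A A1 A2 E E1 c0) {X : Fr} (hX : X.Sm) (cX : X.Cl univ)
    (hm : HasModel X A A1 E) (hL : ∀ p, rsq p < 1 → 0 < X.L p) : False := by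
  obtain ⟨C, hC⟩ := (isCompact_Icc (a := ((-1, -1) : ℝ × ℝ)) (b := (1, 1))).exists_bound_of_continuousOn
    (hX.L.continuous.add hX.N.continuous).continuousOn
  have hC1 : 0 < C + 1 := by
    have := le_trans (norm_nonneg _) (hC (0, 0) (by simp [Prod.le_def]))
    linarith
  have hc : ContinuousAt (fun s => √(E s) * A s ^ 2) 1 :=
    ((h.sE.continuous.sqrt).mul (h.sA.continuous.pow 2)).continuousAt
  have hev : ∀ᶠ s in 𝓝[<] (1 : ℝ), √(E s) * A s ^ 2 < c0 / (C + 1) := by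
    apply Filter.Tendsto.eventually_lt_const (div_pos h.pc hC1)
    simpa [h.E_one] using hc.tendsto.mono_left nhdsWithin_le_nhds
  obtain ⟨s, hs1, hs2⟩ := (hev.and (Ioo_mem_nhdsLT (show (0 : ℝ) < 1 by norm_num))).exists
  have s0 : 0 < s := hs2.1
  have s1 : s < 1 := hs2.2
  have hσ : (s + 1) / 2 < 1 := by linarith
  obtain ⟨ε, hε, pε, qε⟩ := exists_eps h hσ
  obtain ⟨cY, hY⟩ := model_facts h hε pε hσ qε
  have hI : Fr.Iso X (modelFr A A1 ε) {p | rsq p < (s + 1) / 2} := by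
    intro x hx
    obtain ⟨a, b, c⟩ := hm x (lt_trans hx hσ)
    obtain ⟨a', b', c'⟩ := (hY x hx).1
    exact ⟨a.trans a'.symm, b.trans b'.symm, c.trans c'.symm⟩
  refine compare hX (model_sm h hε) (isOpen_sq _) (fun x _ => cX x trivial) cY hI (sqrt_pos.2 s0)
    ?_ ?_ ?_ ?_ ?_ ?_
  · intro p hp
    rw [sq_sqrt s0.le] at hp
    change p.1 * p.1 + p.2 * p.2 < _
    nlinarith
  · intro p hp
    obtain ⟨a, b, c⟩ := hI p hp
    rw [a, b, c]
    exact (hY p hp).2.2.2.1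
  · exact fun p hp => h.pc.trans_le (hY p hp).2.1
  · exact fun p hp => hL p (lt_trans hp hσ)
  · exact fun p hp => (hY p hp).2.2.1
  · intro t
    set p : ℝ × ℝ := (√s * cos t, √s * sin t) with hp
    have hsq : rsq p = s := by
      have := sq_sqrt s0.le
      change √s * cos t * (√s * cos t) + √s * sin t * (√s * sin t) = s
      linear_combination √s ^ 2 * sin_sq_add_cos_sq t + this
    have hp1 : rsq p < (s + 1) / 2 := by rw [hsq]; linarith
    have k1 := (hY p hp1).2.2.2.2 (sin t) (-cos t) (by simp only [hp]; ring)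
    have k2 : ε p = √(E s) := by
      rw [← hsq, ← qε p hp1, sqrt_sq (pε p).le]
    rw [k2, hsq] at k1
    have k3 := det_ge h hX cX hm (lt_trans hp1 hσ)
    have k4 := hL p (lt_trans hp1 hσ)
    have hr : √s ≤ 1 := by rw [sqrt_le_one]; exact s1.le
    have hr0 := sqrt_nonneg s
    have k5 : X.L p + X.N p ≤ C := by
      refine le_trans (le_abs_self _) (hC p ⟨⟨?_, ?_⟩, ⟨?_, ?_⟩⟩) <;> simp only [hp]
      · nlinarith [neg_one_le_cos t]
      · nlinarith [neg_one_le_sin t]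
      · nlinarith [cos_le_one t]
      · nlinarith [sin_le_one t]
    have sc := sin_sq_add_cos_sq t
    set T := X.L p * sin t ^ 2 - 2 * X.M p * sin t * cos t + X.N p * cos t ^ 2 with hT
    set R := X.L p * cos t ^ 2 + 2 * X.M p * sin t * cos t + X.N p * sin t ^ 2 with hR
    have pc := h.pc
    have hTR : c0 ≤ T * R := by
      have e : T * R - ((X.L p - X.N p) * sin t * cos t + X.M p * (sin t ^ 2 - cos t ^ 2)) ^ 2 =
          (X.L p * X.N p - X.M p ^ 2) * (sin t ^ 2 + cos t ^ 2) ^ 2 := by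
        rw [hT, hR]; ring
      rw [sc] at e
      nlinarith [sq_nonneg ((X.L p - X.N p) * sin t * cos t + X.M p * (sin t ^ 2 - cos t ^ 2))]
    have hT0 : 0 ≤ T := by
      have e : X.L p * T = (X.L p * sin t - X.M p * cos t) ^ 2 +
          (X.L p * X.N p - X.M p ^ 2) * cos t ^ 2 := by rw [hT]; ring
      have : 0 ≤ X.L p * T := by
        rw [e]
        have : 0 ≤ X.L p * X.N p - X.M p ^ 2 := by linarith
        positivity
      exact (mul_nonneg_iff_of_pos_left k4).1 this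
    have hsum : T + R = X.L p + X.N p := by
      rw [hT, hR]; linear_combination (X.L p + X.N p) * sc
    have hT1 : c0 / (C + 1) ≤ T := by
      rw [div_le_iff₀ hC1]
      nlinarith
    have k6 : (modelFr A A1 ε).L p * sin t ^ 2 - 2 * (modelFr A A1 ε).M p * sin t * cos t +
        (modelFr A A1 ε).N p * cos t ^ 2 = √(E s) * A s ^ 2 := by
      linear_combination k1 + √(E s) * A s ^ 2 * sc
    rw [k6]
    linarith

/-- the frame of the reflected map -/
def negFr (X : Fr) : Fr where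
  a1 := fun p => -X.a1 p
  a2 := fun p => -X.a2 p
  a3 := fun p => -X.a3 p
  b1 := fun p => -X.b1 p
  b2 := fun p => -X.b2 p
  b3 := fun p => -X.b3 p

theorem no_frame (h : Prof A A1 A2 E E1 c0) {X : Fr} (hX : X.Sm) (cX : X.Cl univ)
    (hm : HasModel X A A1 E) : False := by
  have hne : ∀ p, rsq p < 1 → X.L p ≠ 0 := by
    intro p hp h0
    have := det_ge h hX cX hm hp
    rw [h0] at this
    nlinarith [sq_nonneg (X.M p), h.pc]
  have hsign : ∀ p, rsq p < 1 → ∀ c : ℝ, 0 < c * X.L (0, 0) → 0 < c * X.L p := by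
    intro p hp c hc
    by_contra hcon
    have cL := hX.L.continuous
    have hcont : ContinuousOn (fun t : ℝ => c * X.L (t * p.1, t * p.2)) (Icc 0 1) :=
      Continuous.continuousOn (by fun_prop)
    obtain ⟨t, ht, h0⟩ := intermediate_value_Icc' (zero_le_one' ℝ) hcont
      (show (0 : ℝ) ∈ Icc _ _ from ⟨by simpa using hcon, by simpa using hc.le⟩)
    have hc0 : c ≠ 0 := by rintro rfl; simp at hc
    refine hne (t * p.1, t * p.2) ?_ ((mul_eq_zero.1 h0).resolve_left hc0)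
    have e : rsq (t * p.1, t * p.2) = t ^ 2 * rsq p := by simp only [rsq]; ring
    have : t ^ 2 ≤ 1 := pow_le_one₀ ht.1 ht.2
    rw [e]
    nlinarith [sq_nonneg' p]
  rcases lt_or_gt_of_ne (hne (0, 0) (by simp [rsq])) with h0 | h0
  · refine no_frame_pos h (X := negFr X) ⟨hX.a1.neg, hX.a2.neg, hX.a3.neg, hX.b1.neg, hX.b2.neg,
      hX.b3.neg⟩ ?_ ?_ ?_
    · intro p hp
      obtain ⟨a, b, c⟩ := cX p hp
      simp only [negFr, D_neg, a, b, c, and_self]
    · intro p hp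
      obtain ⟨a, b, c⟩ := hm p hp
      rw [← a, ← b, ← c]
      simp only [negFr, Fr.E, Fr.F, Fr.G, neg_mul_neg, and_self]
    · intro p hp
      have := hsign p hp (-1) (by linarith)
      have e : (negFr X).L p = -1 * X.L p := by
        simp only [negFr, Fr.L, Fr.n1, Fr.n2, Fr.n3, D_neg]; ring
      rwa [e]
  · exact no_frame_pos h hX cX hm fun p hp => by simpa using hsign p hp 1 (by linarith)

end Pool.Agent.MP_665542_gt.H35
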