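import Mathlib
import Pool.Agent.MP_665542_gt.H35.Model

/-!
Explicit polynomial profiles: almost flat discs with a thin rim of total curvature `4π`.
-/

namespace Pool.Agent.MP_665542_gt.H35

open Real Filter Topology Set
open scoped ContDiff

theorem exists_prof {η : ℝ} (hη : 0 < η) :
    ∃ (A A1 A2 E E1 : ℝ → ℝ) (c0 s2 : ℝ), Prof A A1 A2 E E1 c0 ∧ ContDiff ℝ ∞ (Bc A A1 E) ∧
      1 < s2 ∧ s2 ≤ 2 ∧ (∀ s, A s ^ 2 + Bc A A1 E s * s = 1) ∧
      ∀ s, 0 ≤ s → s ≤ s2 → |Bc A A1 E s * s| ≤ η := by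
  obtain ⟨k, hk⟩ := exists_nat_gt (6 / η)
  set m : ℝ := 1 / (2 * k + 5) with hm
  have hk0 : (0 : ℝ) ≤ k := Nat.cast_nonneg k
  have hm0 : 0 < m := by positivity
  have hm1 : m * (2 * k + 5) = 1 := by rw [hm]; field_simp
  have hm5 : m ≤ 1 / 5 := by nlinarith
  have hmη : 12 * m < η := by
    rw [div_lt_iff₀ hη] at hk
    nlinarith
  set c : ℝ := 2 - 3 * m with hc
  have hc0 : 0 < c := by linarith
  clear_value m
  set A : ℝ → ℝ := fun s => 1 - m * s - c * m * s ^ (k + 2) with hA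
  set A1 : ℝ → ℝ := fun s => -m - c * m * ((k + 2) * s ^ (k + 1)) with hA1
  set A2 : ℝ → ℝ := fun s => -(c * m * ((k + 2) * ((k + 1) * s ^ k))) with hA2
  set E : ℝ → ℝ := fun s => (3 * m + c * s ^ (k + 1)) * (2 - 3 * m * s - c * s ^ (k + 2)) with hE
  set E1 : ℝ → ℝ := fun s => c * ((k + 1) * s ^ k) * (2 - 3 * m * s - c * s ^ (k + 2)) +
    (3 * m + c * s ^ (k + 1)) * (-(3 * m) - c * ((k + 2) * s ^ (k + 1))) with hE1
  have p1 : ∀ s : ℝ, HasDerivAt (fun s : ℝ => s ^ (k + 1)) ((k + 1) * s ^ k) s := fun s => by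
    simpa using hasDerivAt_pow (k + 1) s
  have p2 : ∀ s : ℝ, HasDerivAt (fun s : ℝ => s ^ (k + 2)) ((k + 2) * s ^ (k + 1)) s := fun s => by
    simpa using hasDerivAt_pow (k + 2) s
  have hP : ∀ s, A s + 2 * s * A1 s = 1 - 3 * m * s - c * s ^ (k + 2) := by
    intro s
    simp only [hA, hA1]
    linear_combination (-c * s ^ (k + 2)) * hm1
  have hP' : ∀ s, 3 * A1 s + 2 * s * A2 s = -(3 * m) - c * ((k + 2) * s ^ (k + 1)) := by
    intro s
    simp only [hA1, hA2]
    linear_combination (-c * (k + 2) * s ^ (k + 1)) * hm1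
  have hAb : ∀ s, 0 ≤ s → s ≤ 1 → 1 - 3 * m ≤ A s ∧ A s ≤ 1 := by
    intro s s0 s1
    have h1 : s ^ (k + 2) ≤ 1 := pow_le_one₀ s0 s1
    have h2 : 0 ≤ s ^ (k + 2) := pow_nonneg s0 _
    have h3 : c * m * s ^ (k + 2) ≤ c * m * 1 := by gcongr
    have h4 : 0 ≤ c * m * s ^ (k + 2) := by positivity
    have h5 : m * s ≤ m * 1 := by gcongr
    have h6 : 0 ≤ m * s := by positivity
    simp only [hA]
    constructor <;> nlinarith
  have hB : ∀ s, A s ^ 2 + Bc A A1 E s * s = 1 := by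
    intro s
    have e : A s ^ 2 + Bc A A1 E s * s = (A s + 2 * s * A1 s) ^ 2 + s * E s := by
      simp only [Bc]; ring
    rw [e, hP]
    simp only [hE]
    ring
  have sA : ContDiff ℝ ∞ A := by rw [hA]; fun_prop
  have sA1 : ContDiff ℝ ∞ A1 := by rw [hA1]; fun_prop
  have sE : ContDiff ℝ ∞ E := by rw [hE]; fun_prop
  have hcA : ContinuousAt (fun s => 1 - A s ^ 2) 1 :=
    (continuous_const.sub (sA.continuous.pow 2)).continuousAt
  obtain ⟨r, hr, hr2⟩ := Metric.continuousAt_iff.1 hcA (η / 2) (by positivity)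
  have hsm : ∀ s, 0 ≤ s → s ≤ 1 → |1 - A s ^ 2| ≤ η / 2 := by
    intro s s0 s1
    obtain ⟨a, b⟩ := hAb s s0 s1
    rw [abs_le]
    constructor <;> nlinarith
  refine ⟨A, A1, A2, E, E1, 6 * m * (2 / 5) ^ 3, min 2 (1 + r / 2), ⟨sA.of_le (by norm_cast),
    sA1.of_le (by norm_cast), sE.of_le (by norm_cast), fun s => ?_, fun s => ?_,
    fun s => ?_, fun s s0 s1 => ?_, fun s s0 s1 => ?_, ?_, by positivity, fun s s0 s1 => ?_⟩,
    ?_, lt_min (by norm_num) (by linarith), min_le_left _ _, hB, fun s s0 s1 => ?_⟩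
  · refine ((((hasDerivAt_id s).const_mul m).const_sub 1).fun_sub
      ((p2 s).const_mul (c * m))).congr_deriv ?_
    simp only [hA1]; ring
  · refine ((((p1 s).const_mul ((k : ℝ) + 2)).const_mul (c * m)).const_sub (-m)).congr_deriv ?_
    simp only [hA2]
  · refine ((((p1 s).const_mul c).const_add (3 * m)).fun_mul
      ((((hasDerivAt_id s).const_mul (3 * m)).const_sub 2).fun_sub
        ((p2 s).const_mul c))).congr_deriv ?_
    simp only [hE1, id]; ring
  · linarith [(hAb s s0 s1).1]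
  · have h1 : s ^ (k + 2) ≤ 1 := pow_le_one₀ s0 s1.le
    have h3 : c * s ^ (k + 2) ≤ c * 1 := by gcongr
    have h5 : m * s < m * 1 := by gcongr
    simp only [hE]
    exact mul_pos (by positivity) (by linarith)
  · simp only [hE, one_pow, hc]; ring
  · rw [hP, hP']
    have e : E s * (1 - 3 * m * s - c * s ^ (k + 2) -
        2 * s * (-(3 * m) - c * ((k + 2) * s ^ (k + 1)))) +
        s * (1 - 3 * m * s - c * s ^ (k + 2)) * E1 s = 6 * m + 2 * c * ((k + 2) * s ^ (k + 1)) := by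
      simp only [hE, hE1]; ring
    rw [e, mul_comm]
    have h1 : 2 / 5 ≤ A s := by linarith [(hAb s s0 s1).1]
    have h2 : 0 ≤ 2 * c * ((k + 2) * s ^ (k + 1)) := by positivity
    gcongr
    linarith
  · unfold Bc
    fun_prop
  · rw [show Bc A A1 E s * s = 1 - A s ^ 2 by linarith [hB s]]
    rcases le_total s 1 with h | h
    · linarith [hsm s s0 h]
    · have h1 : s ≤ 1 + r / 2 := s1.trans (min_le_right _ _)
      have h2 := hr2 (x := s) (by rw [Real.dist_eq, abs_lt]; constructor <;> linarith)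
      rw [Real.dist_eq] at h2
      have h3 := hsm 1 zero_le_one le_rfl
      have h4 := abs_sub_abs_le_abs_sub (1 - A s ^ 2) (1 - A 1 ^ 2)
      linarith

end Pool.Agent.MP_665542_gt.H35
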