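import Mathlib
import Pool.Agent.MP_665542_gt.H35.Profile

/-!
Tools for inserting the model disc into a periodic metric.
-/

namespace Pool.Agent.MP_665542_gt.H35

open Real Filter Topology Set
open scoped ContDiff

/-- reduction modulo `2π` to `[-π, π)` -/
noncomputable def red (t : ℝ) : ℝ := t - 2 * π * round (t / (2 * π))

theorem red_add (t : ℝ) : red (t + 2 * π) = red t := by
  have hp : 2 * π ≠ 0 := by positivity
  unfold red
  rw [add_div, div_self hp, round_add_one]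
  push_cast
  ring

theorem round_eq_of {t : ℝ} {k : ℤ} (h : |t - 2 * π * k| < 3) : round (t / (2 * π)) = k := by
  have hp : 0 < 2 * π := by positivity
  have := pi_gt_three
  rw [abs_lt] at h
  rw [round_eq_iff]
  constructor
  · rw [le_div_iff₀ hp]; nlinarith
  · rw [div_lt_iff₀ hp]; nlinarith

theorem red_eq_of {t : ℝ} {k : ℤ} (h : |t - 2 * π * k| < 3) : red t = t - 2 * π * k := by
  unfold red
  rw [round_eq_of h]

theorem red_self {t : ℝ} (h : |t| < 3) : red t = t := by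
  simpa using red_eq_of (t := t) (k := 0) (by simpa using h)

theorem red_near {t : ℝ} (h : |red t| < 2) :
    ∀ u, |u - t| < 1 → red u = u - 2 * π * round (t / (2 * π)) := by
  intro u hu
  apply red_eq_of
  unfold red at h
  rw [abs_lt] at *
  constructor <;> linarith [h.1, h.2, hu.1, hu.2]

theorem red_far {t : ℝ} (h : 2 ≤ |red t|) : ∀ u, |u - t| < 1 → 1 ≤ |red u| := by
  intro u hu
  by_contra hc
  push Not at hc
  have h1 : |t - 2 * π * round (u / (2 * π))| < 2 := by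
    unfold red at hc
    rw [abs_lt] at *
    constructor <;> linarith [hc.1, hc.2, hu.1, hu.2]
  rw [red_eq_of (h1.trans (by norm_num))] at h
  linarith

theorem contDiff_per {H : ℝ × ℝ → ℝ} (hH : ContDiff ℝ ∞ H)
    (h0 : ∀ y : ℝ × ℝ, 1 ≤ |y.1| ∨ 1 ≤ |y.2| → H y = 0) (p : ℝ × ℝ) :
    ContDiff ℝ ∞ fun x : ℝ × ℝ => H (red (x.1 - p.1), red (x.2 - p.2)) := by
  rw [contDiff_iff_contDiffAt]
  intro x
  have hb : ∀ᶠ z : ℝ × ℝ in 𝓝 x, |z.1 - p.1 - (x.1 - p.1)| < 1 ∧ |z.2 - p.2 - (x.2 - p.2)| < 1 := by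
    filter_upwards [Metric.ball_mem_nhds x one_pos] with z hz
    rw [Metric.mem_ball, Prod.dist_eq, max_lt_iff, Real.dist_eq, Real.dist_eq] at hz
    rw [sub_sub_sub_cancel_right, sub_sub_sub_cancel_right]
    exact hz
  by_cases h1 : |red (x.1 - p.1)| < 2
  · by_cases h2 : |red (x.2 - p.2)| < 2
    · have : ContDiff ℝ ∞ fun z : ℝ × ℝ => H (z.1 - p.1 - 2 * π * round ((x.1 - p.1) / (2 * π)),
          z.2 - p.2 - 2 * π * round ((x.2 - p.2) / (2 * π))) := hH.comp (by fun_prop)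
      refine this.contDiffAt.congr_of_eventuallyEq ?_
      filter_upwards [hb] with z hz
      rw [red_near h1 _ hz.1, red_near h2 _ hz.2]
    · refine (contDiffAt_const (c := (0 : ℝ))).congr_of_eventuallyEq ?_
      filter_upwards [hb] with z hz
      exact h0 _ (Or.inr (red_far (not_lt.1 h2) _ hz.2))
  · refine (contDiffAt_const (c := (0 : ℝ))).congr_of_eventuallyEq ?_
    filter_upwards [hb] with z hz
    exact h0 _ (Or.inl (red_far (not_lt.1 h1) _ hz.1))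

theorem per_int {α : Type} {g : ℝ × ℝ → α}
    (h : ∀ x : ℝ × ℝ, g (x + (2 * π, 0)) = g x ∧ g (x + (0, 2 * π)) = g x) (x : ℝ × ℝ) (m n : ℤ) :
    g (x.1 + 2 * π * m, x.2 + 2 * π * n) = g x := by
  have h1 : ∀ v : ℝ, Function.Periodic (fun u => g (u, v)) (2 * π) := by
    intro v u
    simpa using (h (u, v)).1
  have h2 : ∀ u : ℝ, Function.Periodic (fun v => g (u, v)) (2 * π) := by
    intro u v
    simpa using (h (u, v)).2
  have a := (h1 (x.2 + 2 * π * n)).int_mul m x.1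
  have b := (h2 x.1).int_mul n x.2
  simp only [mul_comm (m : ℝ), mul_comm (n : ℝ)] at a b
  rw [a, b]

theorem posDef_two {M : Matrix (Fin 2) (Fin 2) ℝ} (hs : M 1 0 = M 0 1) (h0 : 0 < M 0 0)
    (hd : 0 < M 0 0 * M 1 1 - M 0 1 ^ 2) : M.PosDef := by
  refine Matrix.PosDef.of_dotProduct_mulVec_pos ?_ fun x hx => ?_
  · ext i j
    fin_cases i <;> fin_cases j <;> simp [hs]
  · simp only [star_trivial, dotProduct, Matrix.mulVec, Fin.sum_univ_two, hs]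
    have key : 0 < M 0 0 * (x 0 * (M 0 0 * x 0 + M 0 1 * x 1) + x 1 * (M 0 1 * x 0 + M 1 1 * x 1)) := by
      have e : M 0 0 * (x 0 * (M 0 0 * x 0 + M 0 1 * x 1) + x 1 * (M 0 1 * x 0 + M 1 1 * x 1)) =
          (M 0 0 * x 0 + M 0 1 * x 1) ^ 2 + (M 0 0 * M 1 1 - M 0 1 ^ 2) * x 1 ^ 2 := by ring
      rw [e]
      by_cases h1 : x 1 = 0
      · have h2 : x 0 ≠ 0 := by
          intro h2
          apply hx
          ext i
          fin_cases i <;> simp [h1, h2]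
        rw [h1]
        simp only [mul_zero, add_zero, ne_eq, OfNat.ofNat_ne_zero, not_false_eq_true, zero_pow]
        positivity
      · positivity
    exact (mul_pos_iff_of_pos_left h0).1 key

theorem posDef_facts {M : Matrix (Fin 2) (Fin 2) ℝ} (h : M.PosDef) :
    M 1 0 = M 0 1 ∧ 0 < M 0 0 ∧ 0 < M 0 0 * M 1 1 - M 0 1 ^ 2 := by
  have hs : M 1 0 = M 0 1 := by simpa using h.1.apply 0 1
  refine ⟨hs, h.diag_pos, ?_⟩
  have := h.det_pos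
  rw [Matrix.det_fin_two, hs] at this
  linarith

theorem small_pert {g : ℝ × ℝ → Matrix (Fin 2) (Fin 2) ℝ} (hc : ∀ i j, Continuous fun x => g x i j)
    {p : ℝ × ℝ} (hp : (g p).PosDef) {δ : ℝ} (hδ : 0 < δ) :
    ∃ θ > 0, ∀ (y : ℝ × ℝ) (u : ℝ × ℝ × ℝ), ‖y‖ < θ → ‖u‖ < θ →
      √(Matrix.trace ((g (p + y))⁻¹ * !![u.1, u.2.1; u.2.1, u.2.2] * (g (p + y))⁻¹ *
        !![u.1, u.2.1; u.2.1, u.2.2])) < δ ∧ 0 < g (p + y) 0 0 + u.1 ∧
      0 < (g (p + y) 0 0 + u.1) * (g (p + y) 1 1 + u.2.2) - (g (p + y) 0 1 + u.2.1) ^ 2 := by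
  obtain ⟨-, h0, hd⟩ := posDef_facts hp
  have cg : Continuous g := continuous_matrix hc
  have c1 : ContinuousAt (fun z : (ℝ × ℝ) × ℝ × ℝ × ℝ => (g (p + z.1))⁻¹) 0 := by
    have h1 : ContinuousAt (Inv.inv : Matrix (Fin 2) (Fin 2) ℝ → _) (g p) := by
      apply continuousAt_matrix_inv
      rw [Ring.inverse_eq_inv']
      exact continuousAt_inv₀ hp.det_pos.ne'
    exact ContinuousAt.comp_of_eq h1 (cg.comp (by fun_prop)).continuousAt (by simp)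
  have c2 : Continuous (fun z : (ℝ × ℝ) × ℝ × ℝ × ℝ =>
      (!![z.2.1, z.2.2.1; z.2.2.1, z.2.2.2] : Matrix (Fin 2) (Fin 2) ℝ)) := by
    refine continuous_matrix fun i j => ?_
    fin_cases i <;> fin_cases j <;> simp <;> fun_prop
  have c3 : ContinuousAt (fun z : (ℝ × ℝ) × ℝ × ℝ × ℝ =>
      √(Matrix.trace ((g (p + z.1))⁻¹ * !![z.2.1, z.2.2.1; z.2.2.1, z.2.2.2] * (g (p + z.1))⁻¹ *
        !![z.2.1, z.2.2.1; z.2.2.1, z.2.2.2]))) 0 := by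
    refine ContinuousAt.sqrt ?_
    exact (continuous_id.matrix_trace).continuousAt.comp
      (((c1.mul c2.continuousAt).mul c1).mul c2.continuousAt)
  have e3 := c3.tendsto.eventually_lt_const (u := δ) (by
    have : (!![0, 0; 0, 0] : Matrix (Fin 2) (Fin 2) ℝ) = 0 := by
      ext i j; fin_cases i <;> fin_cases j <;> simp
    simpa [this] using hδ)
  have g00 := hc 0 0
  have g01 := hc 0 1
  have g11 := hc 1 1
  have k00 : Continuous fun z : (ℝ × ℝ) × ℝ × ℝ × ℝ => g (p + z.1) 0 0 := g00.comp (by fun_prop)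
  have k01 : Continuous fun z : (ℝ × ℝ) × ℝ × ℝ × ℝ => g (p + z.1) 0 1 := g01.comp (by fun_prop)
  have k11 : Continuous fun z : (ℝ × ℝ) × ℝ × ℝ × ℝ => g (p + z.1) 1 1 := g11.comp (by fun_prop)
  have e4 := ((k00.add (continuous_fst.comp continuous_snd)).tendsto 0).eventually_const_lt
    (u := 0) (by simpa using h0)
  have e5 := ((((k00.add (continuous_fst.comp continuous_snd)).mul
    (k11.add (continuous_snd.comp (continuous_snd.comp continuous_snd)))).sub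
    ((k01.add (continuous_fst.comp (continuous_snd.comp continuous_snd))).pow 2)
    ).tendsto 0).eventually_const_lt (u := 0) (by simpa using hd)
  obtain ⟨θ, hθ, h⟩ := Metric.eventually_nhds_iff.1 (e3.and (e4.and e5))
  refine ⟨θ, hθ, fun y u hy hu => h (y := (y, u)) ?_⟩
  rw [dist_zero_right, Prod.norm_def]
  exact max_lt hy hu

theorem no_imm_affine {A A1 A2 E E1 : ℝ → ℝ} {c0 : ℝ} (h : Prof A A1 A2 E E1 c0)
    (hB : ∀ s, A s ^ 2 + Bc A A1 E s * s = 1)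
    {f1 f2 f3 : ℝ × ℝ → ℝ} (h1 : ContDiff ℝ 4 f1) (h2 : ContDiff ℝ 4 f2) (h3 : ContDiff ℝ 4 f3)
    {p : ℝ × ℝ} {α β γ τ : ℝ} (hα : 0 < α) (hγ : 0 < γ) (hτ : 0 < τ)
    (hm : ∀ ξ x : ℝ × ℝ, rsq ξ < 1 →
      x = (p.1 + τ * (ξ.1 / α - β * ξ.2 / (α * γ)), p.2 + τ * (ξ.2 / γ)) →
      D e1 f1 x * D e1 f1 x + D e1 f2 x * D e1 f2 x + D e1 f3 x * D e1 f3 x =
        α ^ 2 * (1 - Bc A A1 E (rsq ξ) * ξ.2 ^ 2) ∧
      D e1 f1 x * D e2 f1 x + D e1 f2 x * D e2 f2 x + D e1 f3 x * D e2 f3 x =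
        α * (β * (1 - Bc A A1 E (rsq ξ) * ξ.2 ^ 2) + γ * (Bc A A1 E (rsq ξ) * (ξ.1 * ξ.2))) ∧
      D e2 f1 x * D e2 f1 x + D e2 f2 x * D e2 f2 x + D e2 f3 x * D e2 f3 x =
        β ^ 2 * (1 - Bc A A1 E (rsq ξ) * ξ.2 ^ 2) + 2 * β * γ * (Bc A A1 E (rsq ξ) * (ξ.1 * ξ.2)) +
          γ ^ 2 * (1 - Bc A A1 E (rsq ξ) * ξ.1 ^ 2)) : False := by
  have tr : ∀ {f : ℝ × ℝ → ℝ}, ContDiff ℝ 4 f →
      ContDiff ℝ 4 (fun ξ : ℝ × ℝ =>
        τ⁻¹ * f (p.1 + τ * (ξ.1 / α - β * ξ.2 / (α * γ)), p.2 + τ * (ξ.2 / γ))) ∧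
      ∀ v ξ : ℝ × ℝ, D v (fun ξ : ℝ × ℝ =>
        τ⁻¹ * f (p.1 + τ * (ξ.1 / α - β * ξ.2 / (α * γ)), p.2 + τ * (ξ.2 / γ))) ξ =
        (v.1 / α - β * v.2 / (α * γ)) *
          D e1 f (p.1 + τ * (ξ.1 / α - β * ξ.2 / (α * γ)), p.2 + τ * (ξ.2 / γ)) +
        v.2 / γ * D e2 f (p.1 + τ * (ξ.1 / α - β * ξ.2 / (α * γ)), p.2 + τ * (ξ.2 / γ)) := by
    intro f hf
    have hc : ContDiff ℝ 4 (fun ξ : ℝ × ℝ =>
        f (p.1 + τ * (ξ.1 / α - β * ξ.2 / (α * γ)), p.2 + τ * (ξ.2 / γ))) := hf.comp (by fun_prop)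
    refine ⟨contDiff_const.mul hc, fun v ξ => ?_⟩
    have a1 : D v (fun ξ : ℝ × ℝ => p.1 + τ * (ξ.1 / α - β * ξ.2 / (α * γ))) ξ =
        τ * (v.1 / α - β * v.2 / (α * γ)) := by
      have : (fun ξ : ℝ × ℝ => p.1 + τ * (ξ.1 / α - β * ξ.2 / (α * γ))) =
          fun ξ : ℝ × ℝ => p.1 + ((τ / α) * ξ.1 - (τ * β / (α * γ)) * ξ.2) := by
        ext ξ; ring
      rw [this, D_add (by fun_prop) (by fun_prop), D_sub (by fun_prop) (by fun_prop),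
        D_const_mul _ (by fun_prop), D_const_mul _ (by fun_prop), D_const, D_fst, D_snd]
      ring
    have a2 : D v (fun ξ : ℝ × ℝ => p.2 + τ * (ξ.2 / γ)) ξ = τ * (v.2 / γ) := by
      have : (fun ξ : ℝ × ℝ => p.2 + τ * (ξ.2 / γ)) = fun ξ : ℝ × ℝ => p.2 + (τ / γ) * ξ.2 := by
        ext ξ; ring
      rw [this, D_add (by fun_prop) (by fun_prop), D_const_mul _ (by fun_prop), D_const, D_snd]
      ring
    rw [D_const_mul _ (d3 (l43 hc) ξ), D_comp2 (d3 (l43 hf)) (by fun_prop) (by fun_prop), a1, a2]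
    field_simp
  obtain ⟨s1, t1⟩ := tr h1
  obtain ⟨s2, t2⟩ := tr h2
  obtain ⟨s3, t3⟩ := tr h3
  refine no_frame h (X := ⟨D e1 _, D e1 _, D e1 _, D e2 _, D e2 _, D e2 _⟩)
    ⟨cd43 s1 _, cd43 s2 _, cd43 s3 _, cd43 s1 _, cd43 s2 _, cd43 s3 _⟩
    (fun q _ => ⟨D_comm (l32 (l43 s1)) _ _ _, D_comm (l32 (l43 s2)) _ _ _,
      D_comm (l32 (l43 s3)) _ _ _⟩) ?_
  intro ξ hξ
  obtain ⟨m1, m2, m3⟩ := hm ξ _ hξ rfl
  have hb := hB (rsq ξ)
  simp only [Fr.E, Fr.F, Fr.G, t1, t2, t3]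
  have hs : rsq ξ = ξ.1 * ξ.1 + ξ.2 * ξ.2 := rfl
  generalize Bc A A1 E (rsq ξ) = B at *
  generalize A (rsq ξ) = a at *
  rw [hs] at hb
  have i1 : α * α⁻¹ = 1 := mul_inv_cancel₀ hα.ne'
  have i2 : γ * γ⁻¹ = 1 := mul_inv_cancel₀ hγ.ne'
  simp only [div_eq_mul_inv, mul_inv] at m1 m2 m3 ⊢
  refine ⟨?_, ?_, ?_⟩
  · linear_combination α⁻¹ ^ 2 * m1 - hb + (1 - B * ξ.2 ^ 2) * (α * α⁻¹ + 1) * i1
  · linear_combination (-β * α⁻¹ ^ 2 * γ⁻¹) * m1 + α⁻¹ * γ⁻¹ * m2 +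
      (-β * γ⁻¹ * (1 - B * ξ.2 ^ 2) * α * α⁻¹ + B * ξ.1 * ξ.2 * γ * γ⁻¹) * i1 + B * ξ.1 * ξ.2 * i2
  · linear_combination (β ^ 2 * α⁻¹ ^ 2 * γ⁻¹ ^ 2) * m1 - 2 * β * α⁻¹ * γ⁻¹ ^ 2 * m2 +
      γ⁻¹ ^ 2 * m3 - hb + (β ^ 2 * γ⁻¹ ^ 2 * (1 - B * ξ.2 ^ 2) * (α * α⁻¹ - 1) -
        2 * β * γ * γ⁻¹ ^ 2 * (B * ξ.1 * ξ.2)) * i1 + (1 - B * ξ.1 ^ 2) * (γ * γ⁻¹ + 1) * i2

end Pool.Agent.MP_665542_gt.H35
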